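import Pool.Agent.Lib.MP_9f2731_nt.CG.Mf.Spec

set_option autoImplicit false

namespace Pool.Agent.Lib.MP_9f2731_nt.CG.Mf

open Finset
open Pool.Agent.Lib.MP_9f2731_nt.GP Pool.Agent.Lib.MP_9f2731_nt.GP.Sv Pool.Agent.Lib.MP_9f2731_nt.QL
  Pool.Agent.Lib.MP_9f2731_nt.QL.Sw Pool.Agent.Lib.MP_9f2731_nt.CG Pool.Agent.Lib.MP_9f2731_nt.CG.Ma

private theorem MfA_log (X : ℕ) (hX : 1 ≤ X) : Real.log (RR X) = Real.log X / 5 := by
  unfold RR
  rw [Real.log_rpow (by exact_mod_cast hX)]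
  ring

private theorem MfA_prod {ι : Type} [DecidableEq ι] (x y : ι → ℝ) (A e : ℝ) (hA : 1 ≤ A)
    (hx : ∀ i, |x i| ≤ A) (hy : ∀ i, |y i| ≤ A) (he : ∀ i, |x i - y i| ≤ e) (s : Finset ι) :
    |∏ i ∈ s, x i - ∏ i ∈ s, y i| ≤ A ^ s.card * (s.card * e) := by
  have hA0 : 0 ≤ A := by linarith
  induction s using Finset.induction_on with
  | empty => simp
  | insert a s ha ih =>
    have he0 : 0 ≤ e := (abs_nonneg _).trans (he a)
    rw [Finset.prod_insert ha, Finset.prod_insert ha, Finset.card_insert_of_notMem ha]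
    have hY : |∏ i ∈ s, y i| ≤ A ^ s.card := by
      rw [Finset.abs_prod]
      calc ∏ i ∈ s, |y i| ≤ ∏ _i ∈ s, A :=
            Finset.prod_le_prod (fun i _ => abs_nonneg _) fun i _ => hy i
        _ = A ^ s.card := Finset.prod_const _
    have e1 : x a * ∏ i ∈ s, x i - y a * ∏ i ∈ s, y i =
        x a * (∏ i ∈ s, x i - ∏ i ∈ s, y i) + (x a - y a) * ∏ i ∈ s, y i := by ring
    rw [e1]
    calc |x a * (∏ i ∈ s, x i - ∏ i ∈ s, y i) + (x a - y a) * ∏ i ∈ s, y i|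
        ≤ |x a * (∏ i ∈ s, x i - ∏ i ∈ s, y i)| + |(x a - y a) * ∏ i ∈ s, y i| := abs_add_le _ _
      _ ≤ A * (A ^ s.card * (s.card * e)) + e * A ^ s.card := by
          rw [abs_mul, abs_mul]
          exact add_le_add (mul_le_mul (hx a) ih (abs_nonneg _) hA0)
            (mul_le_mul (he a) hY (abs_nonneg _) he0)
      _ ≤ A ^ (s.card + 1) * (((s.card + 1 : ℕ) : ℝ) * e) := by
          have h1 : 0 ≤ e * A ^ s.card := by positivity
          have h2 : e * A ^ s.card ≤ A * (e * A ^ s.card) := by nlinarith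
          push_cast
          calc A * (A ^ s.card * (s.card * e)) + e * A ^ s.card
              ≤ A * (A ^ s.card * (s.card * e)) + A * (e * A ^ s.card) := by linarith
            _ = A ^ (s.card + 1) * (((s.card : ℝ) + 1) * e) := by ring

private theorem MfA_thr (K : ℕ) (C D1 D2 D3 η : ℝ) (hη : 0 < η) :
    ∃ X0 : ℝ, ∀ x : ℝ, X0 ≤ x → Real.exp 10 ≤ x ∧ 1 ≤ (Real.log (Real.log x)) ^ 2 ∧
      D1 * (Real.exp (C / (Real.log (Real.log x)) ^ 2) - 1) ≤ η / 2 ∧
      D2 / Real.sqrt (Real.log x) ≤ η / 2 ∧ D3 * Real.log x ^ (4 * K) ≤ x ^ ((1 : ℝ) / 5) := by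
  have hll : Filter.Tendsto (fun x : ℝ => Real.log (Real.log x)) Filter.atTop Filter.atTop :=
    Real.tendsto_log_atTop.comp Real.tendsto_log_atTop
  have hll2 : Filter.Tendsto (fun x : ℝ => (Real.log (Real.log x)) ^ 2) Filter.atTop Filter.atTop :=
    (Filter.tendsto_pow_atTop two_ne_zero).comp hll
  have h1 := Filter.eventually_ge_atTop (Real.exp 10)
  have h2 := hll2.eventually_ge_atTop 1
  have h3 : Filter.Tendsto (fun x : ℝ => D1 * (Real.exp (C / (Real.log (Real.log x)) ^ 2) - 1))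
      Filter.atTop (nhds (D1 * (Real.exp 0 - 1))) :=
    (((Real.continuous_exp.tendsto 0).comp (hll2.const_div_atTop C)).sub_const 1).const_mul D1
  have h3' := h3.eventually_le_const (u := η / 2) (by
    rw [Real.exp_zero, sub_self, mul_zero]
    linarith)
  have h4 : Filter.Tendsto (fun x : ℝ => D2 / Real.sqrt (Real.log x)) Filter.atTop (nhds 0) :=
    (Real.tendsto_sqrt_atTop.comp Real.tendsto_log_atTop).const_div_atTop D2
  have h4' := h4.eventually_le_const (u := η / 2) (by linarith)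
  have h5 : ∀ᶠ x : ℝ in Filter.atTop, D3 * Real.log x ^ (4 * K) ≤ x ^ ((1 : ℝ) / 5) := by
    have h := ((isLittleO_log_rpow_rpow_atTop ((4 * K : ℕ) : ℝ)
      (by norm_num : (0 : ℝ) < 1 / 5)).const_mul_left D3).bound (c := 1) one_pos
    filter_upwards [h, Filter.eventually_ge_atTop (1 : ℝ)] with x hx hx1
    rw [one_mul, Real.norm_eq_abs, Real.norm_eq_abs, Real.rpow_natCast,
      abs_of_nonneg (Real.rpow_nonneg (by linarith) _)] at hx
    exact (le_abs_self _).trans hx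
  obtain ⟨X0, hX0⟩ := Filter.eventually_atTop.1 (h1.and (h2.and (h3'.and (h4'.and h5))))
  exact ⟨X0, fun x hx => hX0 x hx⟩

theorem pMfA (h1 : S1FStmt) (h2 : PfBStmt) (h3 : MfTStmt) : MfAStmt := by
  intro K r P bd 𝒜 hv η hη
  have hP : ∀ i, Pok (P i) := fun i s => ⟨(hv.be i s).1, (hv.be i s).2.trans (hv.one i)⟩
  obtain ⟨CT, X1, hCT, h3⟩ := h3 r P hP
  obtain ⟨C, hC, h1⟩ := h1 K
  obtain ⟨M, hM⟩ : ∃ M : ℝ, M = ∑ i, (P i).M := ⟨_, rfl⟩
  have hM0 : ∀ i, 0 ≤ (P i).M := fun i => by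
    unfold Pf.M
    exact Finset.sum_nonneg fun s _ => abs_nonneg _
  have hMi : ∀ i, (P i).M ≤ M := fun i => by
    rw [hM]
    exact Finset.single_le_sum (f := fun j => (P j).M) (fun j _ => hM0 j) (mem_univ i)
  have hMp : 0 ≤ M := by
    rw [hM]
    exact Finset.sum_nonneg fun j _ => hM0 j
  obtain ⟨D, hD⟩ : ∃ D : ℝ, D = ∑ i, ∑ k, |ip (P i) (P k)| := ⟨_, rfl⟩
  have hDi : ∀ i k, |ip (P i) (P k)| ≤ D := fun i k => by
    rw [hD]
    calc |ip (P i) (P k)| ≤ ∑ k, |ip (P i) (P k)| :=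
          Finset.single_le_sum (f := fun k => |ip (P i) (P k)|) (fun j _ => abs_nonneg _)
            (mem_univ k)
      _ ≤ ∑ i, ∑ k, |ip (P i) (P k)| :=
          Finset.single_le_sum (f := fun i => ∑ k, |ip (P i) (P k)|)
            (fun j _ => Finset.sum_nonneg fun _ _ => abs_nonneg _) (mem_univ i)
  have hD0 : 0 ≤ D := by
    rw [hD]
    exact Finset.sum_nonneg fun _ _ => Finset.sum_nonneg fun _ _ => abs_nonneg _
  obtain ⟨A, hA⟩ : ∃ A : ℝ, A = CT + D + 1 := ⟨_, rfl⟩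
  have hA1 : 1 ≤ A := by linarith
  obtain ⟨N, hN⟩ : ∃ N : ℝ, N = (𝒜.card : ℝ) ^ 2 := ⟨_, rfl⟩
  have hN0 : 0 ≤ N := by
    rw [hN]
    positivity
  obtain ⟨X2, hX2⟩ := MfA_thr K C (N * CT ^ K) (N * (A ^ K * (K * CT))) (N * (M + 1) ^ (2 * K)) η hη
  refine ⟨max X1 X2, fun X w V p0 P0 c a hX hS hP0 => ?_⟩
  have hXX1 : X1 ≤ X := le_trans (le_max_left _ _) hX
  obtain ⟨hX10, hll, t1, t2, t3⟩ := hX2 X (le_trans (le_max_right _ _) hX)
  obtain ⟨h3a, -⟩ := h3 X w V p0 K a hXX1 hS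
  have hXr : (0 : ℝ) < X := lt_of_lt_of_le (Real.exp_pos _) hX10
  have hX1 : 1 ≤ X := by
    have : 0 < X := by exact_mod_cast hXr
    omega
  obtain ⟨L, hL⟩ : ∃ L : ℝ, L = Real.log X := ⟨_, rfl⟩
  have hL10 : 10 ≤ L := by
    rw [hL, Real.le_log_iff_exp_le hXr]
    exact hX10
  have hlR : Real.log (RR X) = L / 5 := by
    rw [hL]
    exact MfA_log X hX1
  have hR0 : 0 < RR X := by
    unfold RR
    exact Real.rpow_pos_of_pos hXr _
  have hR2 : 2 ≤ RR X := by
    rw [← Real.exp_log hR0, hlR]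
    have := Real.add_one_le_exp (L / 5)
    linarith
  have hR1 : 1 ≤ RR X := by linarith
  have hw := hS.hw
  have hw1r : (1 : ℝ) ≤ w := hll.trans hw
  have hw1 : 1 ≤ w := by exact_mod_cast hw1r
  have hVp : 1 ≤ V * p0 := Nat.mul_pos hS.hV hS.hp.pos
  have hd0 : 0 < dlV (V * p0) := dlV_pos hVp
  obtain ⟨G, hG⟩ : ∃ G : ℝ, G = GG (V * p0) X := ⟨_, rfl⟩
  have hG0 : 0 < G := by
    rw [hG]
    unfold GG
    rw [hlR]
    have : 0 < L / 5 := by linarith
    positivity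
  have hs0 : 0 < Real.sqrt L := Real.sqrt_pos.2 (by linarith)
  have hP01 : 1 ≤ P0 := by
    rcases hP0 with h | h
    · omega
    · rw [h]
      exact hS.hp.pos
  have hP0r : (0 : ℝ) < P0 := by exact_mod_cast hP01
  have hqs : ∀ p ∈ QsV (V * p0) (RR X), w < p ∧ ¬ p ∣ P0 := by
    intro p hp
    have hp' := mem_QsV.1 hp
    constructor
    · by_contra h
      exact hp'.2.1 (hS.hs p hp'.1 (by omega))
    · rcases hP0 with h | h
      · rw [h]
        intro h'
        exact hp'.1.one_lt.ne' (Nat.dvd_one.1 h')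
      · rw [h]
        intro h'
        exact hp'.2.1 (dvd_mul_of_dvd_right h' V)
  rw [← hG] at h3a ⊢
  rw [← hL] at h3a t2 t3
  obtain ⟨B, hB⟩ : ∃ B : ℝ, B = M * Real.log (RR X) ^ 2 := ⟨_, rfl⟩
  have hB0 : 0 ≤ B := by
    rw [hB]
    positivity
  obtain ⟨e, he⟩ : ∃ e : ℝ, e = CT ^ K * (Real.exp (C / w) - 1) +
    A ^ K * (K * (CT / Real.sqrt L)) := ⟨_, rfl⟩
  -- one pair
  have key : ∀ v ∈ 𝒜, ∀ u ∈ 𝒜,
      |∑ b ∈ (Icc 1 X).filter (fun b => b ≡ c [MOD P0]),
        ∏ j, (AF (V * p0) (RR X) (pfn (P (v j)) (RR X)) (a j * b + 1) *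
          AF (V * p0) (RR X) (pfn (P (u j)) (RR X)) (a j * b + 1))
        - X / P0 * (G ^ K * ∏ j, ip (P (v j)) (P (u j)))| ≤
      X / P0 * (G ^ K * e) + RR X ^ 2 * B ^ (2 * K) := by
    intro v hvA u huA
    have hmain := h1 (Fin K) (V * p0) w X P0 c (RR X) B (fun _ => CT * G) a
      (fun i => if i.2 then pfn (P (v i.1)) (RR X) else pfn (P (u i.1)) (RR X))
      (fun i => if i.2 then RR X ^ bd (v i.1) else RR X ^ bd (u i.1))
      (by rw [Fintype.card_fin]) hw1 hVp hP01 (by linarith) hqs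
      (fun j p hp => hS.ha j p (mem_QsV.1 hp).1 (mem_QsV.1 hp).2.1)
      (fun j k hjk p hp => hS.hd j k hjk p (mem_QsV.1 hp).1 (mem_QsV.1 hp).2.1)
      (by
        rintro ⟨j, b⟩ n
        rw [hB]
        cases b
        · refine ((h2 (P (u j)) (RR X) hR1 (hP _)).1 n).trans ?_
          exact mul_le_mul_of_nonneg_right (hMi _) (by positivity)
        · refine ((h2 (P (v j)) (RR X) hR1 (hP _)).1 n).trans ?_
          exact mul_le_mul_of_nonneg_right (hMi _) (by positivity))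
      (by
        have hle : ∀ i, RR X ^ bd i ≤ RR X := fun i => by
          calc RR X ^ bd i ≤ RR X ^ (1 : ℝ) :=
                Real.rpow_le_rpow_of_exponent_le hR1 (hv.one i)
            _ = RR X := Real.rpow_one _
        rintro ⟨j, b⟩
        cases b
        · exact ⟨(Real.rpow_pos_of_pos hR0 _).le, hle _,
            (h2 (P (u j)) (RR X) hR1 (hP _)).2.1 _ fun s => (hv.be _ s).2⟩
        · exact ⟨(Real.rpow_pos_of_pos hR0 _).le, hle _,
            (h2 (P (v j)) (RR X) hR1 (hP _)).2.1 _ fun s => (hv.be _ s).2⟩)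
      (fun j b c' => (h3a (v j) (u j)).2 b c')
    simp only [if_true, Bool.false_eq_true, if_false] at hmain
    -- the last error
    have hlast : ∏ i : Fin K × Bool, ((if i.2 then RR X ^ bd (v i.1) else RR X ^ bd (u i.1)) * B) ≤
        RR X ^ 2 * B ^ (2 * K) := by
      rw [Fintype.prod_prod_type]
      simp only [Fintype.prod_bool, if_true, Bool.false_eq_true, if_false]
      have e1 : ∏ j : Fin K, (RR X ^ bd (v j) * B * (RR X ^ bd (u j) * B)) =
          (∏ j, RR X ^ bd (v j)) * (∏ j, RR X ^ bd (u j)) * B ^ (2 * K) := by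
        rw [← Finset.prod_mul_distrib]
        have : B ^ (2 * K) = ∏ _j : Fin K, B ^ 2 := by
          rw [Finset.prod_const, Finset.card_univ, Fintype.card_fin, pow_mul]
        rw [this, ← Finset.prod_mul_distrib]
        exact Finset.prod_congr rfl fun j _ => by ring
      rw [e1, ← Real.rpow_sum_of_pos hR0, ← Real.rpow_sum_of_pos hR0]
      have hle : ∀ v' ∈ 𝒜, RR X ^ (∑ j, bd (v' j)) ≤ RR X := fun v' hv' => by
        calc RR X ^ (∑ j, bd (v' j)) ≤ RR X ^ (1 : ℝ) :=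
              Real.rpow_le_rpow_of_exponent_le hR1 (hv.simp v' hv')
          _ = RR X := Real.rpow_one _
      refine mul_le_mul_of_nonneg_right ?_ (by positivity)
      rw [pow_two]
      exact mul_le_mul (hle v hvA) (hle u huA) (Real.rpow_pos_of_pos hR0 _).le hR0.le
    -- the main term
    have hT : ∏ _j : Fin K, (CT * G) = CT ^ K * G ^ K := by
      rw [Finset.prod_const, Finset.card_univ, Fintype.card_fin, mul_pow]
    rw [hT] at hmain
    have hpr := MfA_prod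
      (fun j : Fin K => TTF (V * p0) (RR X) (pfn (P (v j)) (RR X)) (pfn (P (u j)) (RR X)) 1 1 / G)
      (fun j : Fin K => ip (P (v j)) (P (u j))) A (CT / Real.sqrt L) hA1
      (fun j => by
        rw [abs_div, abs_of_pos hG0, div_le_iff₀ hG0]
        refine ((h3a (v j) (u j)).2 1 1).trans ?_
        exact mul_le_mul_of_nonneg_right (by linarith) hG0.le)
      (fun j => (hDi _ _).trans (by linarith))
      (fun j => by
        have e2 : TTF (V * p0) (RR X) (pfn (P (v j)) (RR X)) (pfn (P (u j)) (RR X)) 1 1 / G -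
            ip (P (v j)) (P (u j)) =
            (TTF (V * p0) (RR X) (pfn (P (v j)) (RR X)) (pfn (P (u j)) (RR X)) 1 1 -
              G * ip (P (v j)) (P (u j))) / G := by
          field_simp
        rw [e2, abs_div, abs_of_pos hG0, div_le_iff₀ hG0]
        refine (h3a (v j) (u j)).1.trans (le_of_eq ?_)
        ring) univ
    rw [Finset.card_univ, Fintype.card_fin, Finset.prod_div_distrib, Finset.prod_const,
      Finset.card_univ, Fintype.card_fin] at hpr
    have hGK : 0 < G ^ K := pow_pos hG0 K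
    have hpr2 : |∏ j : Fin K, TTF (V * p0) (RR X) (pfn (P (v j)) (RR X)) (pfn (P (u j)) (RR X)) 1 1
        - G ^ K * ∏ j, ip (P (v j)) (P (u j))| ≤ G ^ K * (A ^ K * (K * (CT / Real.sqrt L))) := by
      have e3 : ∏ j : Fin K, TTF (V * p0) (RR X) (pfn (P (v j)) (RR X)) (pfn (P (u j)) (RR X)) 1 1
          - G ^ K * ∏ j, ip (P (v j)) (P (u j)) =
          G ^ K * ((∏ j : Fin K, TTF (V * p0) (RR X) (pfn (P (v j)) (RR X))
            (pfn (P (u j)) (RR X)) 1 1) / G ^ K - ∏ j, ip (P (v j)) (P (u j))) := by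
        field_simp
      rw [e3, abs_mul, abs_of_pos hGK]
      exact mul_le_mul_of_nonneg_left hpr hGK.le
    have hXP : 0 ≤ (X : ℝ) / P0 := by positivity
    have hpr3 : |(X : ℝ) / P0 * ∏ j : Fin K, TTF (V * p0) (RR X) (pfn (P (v j)) (RR X))
        (pfn (P (u j)) (RR X)) 1 1 - X / P0 * (G ^ K * ∏ j, ip (P (v j)) (P (u j)))| ≤
        X / P0 * (G ^ K * (A ^ K * (K * (CT / Real.sqrt L)))) := by
      rw [← mul_sub, abs_mul, abs_of_nonneg hXP]
      exact mul_le_mul_of_nonneg_left hpr2 hXP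
    have htri := abs_sub_le
      (∑ b ∈ (Icc 1 X).filter (fun b => b ≡ c [MOD P0]),
        ∏ j, (AF (V * p0) (RR X) (pfn (P (v j)) (RR X)) (a j * b + 1) *
          AF (V * p0) (RR X) (pfn (P (u j)) (RR X)) (a j * b + 1)))
      (X / P0 * ∏ j : Fin K, TTF (V * p0) (RR X) (pfn (P (v j)) (RR X))
        (pfn (P (u j)) (RR X)) 1 1)
      (X / P0 * (G ^ K * ∏ j, ip (P (v j)) (P (u j))))
    have e4 : (X : ℝ) / P0 * (G ^ K * e) =
        X / P0 * (CT ^ K * G ^ K * (Real.exp (C / w) - 1)) +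
        X / P0 * (G ^ K * (A ^ K * (K * (CT / Real.sqrt L)))) := by
      rw [he]
      ring
    rw [e4]
    linarith
  -- sum over the pairs
  have hexp : ∑ b ∈ (Icc 1 X).filter (fun b => b ≡ c [MOD P0]), WW (V * p0) X P 𝒜 a b ^ 2 =
      ∑ v ∈ 𝒜, ∑ u ∈ 𝒜, ∑ b ∈ (Icc 1 X).filter (fun b => b ≡ c [MOD P0]),
        ∏ j, (AF (V * p0) (RR X) (pfn (P (v j)) (RR X)) (a j * b + 1) *
          AF (V * p0) (RR X) (pfn (P (u j)) (RR X)) (a j * b + 1)) := by
    have h : ∀ b, WW (V * p0) X P 𝒜 a b ^ 2 = ∑ v ∈ 𝒜, ∑ u ∈ 𝒜,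
        ∏ j, (AF (V * p0) (RR X) (pfn (P (v j)) (RR X)) (a j * b + 1) *
          AF (V * p0) (RR X) (pfn (P (u j)) (RR X)) (a j * b + 1)) := by
      intro b
      unfold WW
      rw [pow_two, Finset.sum_mul_sum]
      exact Finset.sum_congr rfl fun v _ => Finset.sum_congr rfl fun u _ =>
        (Finset.prod_mul_distrib).symm
    rw [Finset.sum_congr rfl fun b _ => h b, Finset.sum_comm]
    exact Finset.sum_congr rfl fun v _ => Finset.sum_comm
  have hI : (X : ℝ) / P0 * (G ^ K * Iq P 𝒜) =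
      ∑ v ∈ 𝒜, ∑ u ∈ 𝒜, X / P0 * (G ^ K * ∏ j, ip (P (v j)) (P (u j))) := by
    unfold Iq
    simp only [Finset.mul_sum]
  rw [hexp, hI, ← Finset.sum_sub_distrib]
  have hsum : |∑ v ∈ 𝒜, (∑ u ∈ 𝒜, ∑ b ∈ (Icc 1 X).filter (fun b => b ≡ c [MOD P0]),
        ∏ j, (AF (V * p0) (RR X) (pfn (P (v j)) (RR X)) (a j * b + 1) *
          AF (V * p0) (RR X) (pfn (P (u j)) (RR X)) (a j * b + 1)) -
        ∑ u ∈ 𝒜, X / P0 * (G ^ K * ∏ j, ip (P (v j)) (P (u j))))| ≤
      N * (X / P0 * (G ^ K * e) + RR X ^ 2 * B ^ (2 * K)) := by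
    calc |∑ v ∈ 𝒜, (∑ u ∈ 𝒜, ∑ b ∈ (Icc 1 X).filter (fun b => b ≡ c [MOD P0]),
          ∏ j, (AF (V * p0) (RR X) (pfn (P (v j)) (RR X)) (a j * b + 1) *
            AF (V * p0) (RR X) (pfn (P (u j)) (RR X)) (a j * b + 1)) -
          ∑ u ∈ 𝒜, X / P0 * (G ^ K * ∏ j, ip (P (v j)) (P (u j))))|
        ≤ ∑ v ∈ 𝒜, |∑ u ∈ 𝒜, ∑ b ∈ (Icc 1 X).filter (fun b => b ≡ c [MOD P0]),
          ∏ j, (AF (V * p0) (RR X) (pfn (P (v j)) (RR X)) (a j * b + 1) *
            AF (V * p0) (RR X) (pfn (P (u j)) (RR X)) (a j * b + 1)) -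
          ∑ u ∈ 𝒜, X / P0 * (G ^ K * ∏ j, ip (P (v j)) (P (u j)))| :=
          Finset.abs_sum_le_sum_abs _ _
      _ ≤ ∑ v ∈ 𝒜, ∑ u ∈ 𝒜, (X / P0 * (G ^ K * e) + RR X ^ 2 * B ^ (2 * K)) := by
          refine Finset.sum_le_sum fun v hvA => ?_
          rw [← Finset.sum_sub_distrib]
          refine (Finset.abs_sum_le_sum_abs _ _).trans ?_
          exact Finset.sum_le_sum fun u huA => key v hvA u huA
      _ = N * (X / P0 * (G ^ K * e) + RR X ^ 2 * B ^ (2 * K)) := by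
          rw [Finset.sum_const, Finset.sum_const, nsmul_eq_mul, nsmul_eq_mul, hN]
          ring
  refine hsum.trans ?_
  have hGK : 0 < G ^ K := pow_pos hG0 K
  have hXP : 0 ≤ (X : ℝ) / P0 := by positivity
  have hNe : N * e ≤ η := by
    have h4 : Real.exp (C / w) ≤ Real.exp (C / (Real.log (Real.log X)) ^ 2) := by
      refine Real.exp_le_exp.2 ?_
      have : 0 < (Real.log (Real.log X)) ^ 2 := by linarith
      gcongr
    have h5 : N * CT ^ K * (Real.exp (C / w) - 1) ≤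
        N * CT ^ K * (Real.exp (C / (Real.log (Real.log X)) ^ 2) - 1) := by
      refine mul_le_mul_of_nonneg_left (by linarith) (by positivity)
    have h6 : N * (A ^ K * (K * CT)) / Real.sqrt L = N * (A ^ K * (K * (CT / Real.sqrt L))) := by
      ring
    rw [he, mul_add]
    have h7 : N * (CT ^ K * (Real.exp (C / w) - 1)) = N * CT ^ K * (Real.exp (C / w) - 1) := by
      ring
    rw [h7, ← h6]
    linarith
  have hNB : N * (RR X ^ 2 * B ^ (2 * K)) ≤ (X : ℝ) ^ ((3 : ℝ) / 5) := by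
    have hBL : B ≤ (M + 1) * L ^ 2 := by
      rw [hB, hlR]
      have : (L / 5) ^ 2 ≤ L ^ 2 := by
        have : L / 5 ≤ L := by linarith
        gcongr
      calc M * (L / 5) ^ 2 ≤ (M + 1) * (L / 5) ^ 2 := by
            refine mul_le_mul_of_nonneg_right (by linarith) (by positivity)
        _ ≤ (M + 1) * L ^ 2 := by gcongr
    have hRR : RR X ^ 2 = (X : ℝ) ^ ((2 : ℝ) / 5) := by
      unfold RR
      rw [← Real.rpow_natCast, ← Real.rpow_mul hXr.le]
      norm_num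
    calc N * (RR X ^ 2 * B ^ (2 * K)) ≤ N * (RR X ^ 2 * ((M + 1) * L ^ 2) ^ (2 * K)) := by
          gcongr
      _ = RR X ^ 2 * (N * (M + 1) ^ (2 * K) * L ^ (4 * K)) := by
          rw [mul_pow, ← pow_mul]
          have : 2 * (2 * K) = 4 * K := by ring
          rw [this]
          ring
      _ ≤ RR X ^ 2 * (X : ℝ) ^ ((1 : ℝ) / 5) := by
          refine mul_le_mul_of_nonneg_left t3 (by positivity)
      _ = (X : ℝ) ^ ((3 : ℝ) / 5) := by
          rw [hRR, ← Real.rpow_add hXr]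
          norm_num
  calc N * (X / P0 * (G ^ K * e) + RR X ^ 2 * B ^ (2 * K))
      = X / P0 * (G ^ K * (N * e)) + N * (RR X ^ 2 * B ^ (2 * K)) := by ring
    _ ≤ X / P0 * (G ^ K * η) + (X : ℝ) ^ ((3 : ℝ) / 5) := by
        refine add_le_add ?_ hNB
        refine mul_le_mul_of_nonneg_left ?_ hXP
        exact mul_le_mul_of_nonneg_left hNe hGK.le

end Pool.Agent.Lib.MP_9f2731_nt.CG.Mf
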