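import Pool.Agent.Lib.MP_9f2731_nt.CG.Mf.Spec
import Pool.Agent.Lib.MP_aa9ae4_nt.Mertens

set_option autoImplicit false

namespace Pool.Agent.Lib.MP_9f2731_nt.CG.Mf

open Finset
open Pool.Agent.Lib.MP_9f2731_nt.GP Pool.Agent.Lib.MP_9f2731_nt.GP.Sv Pool.Agent.Lib.MP_9f2731_nt.QL
  Pool.Agent.Lib.MP_9f2731_nt.QL.Sw Pool.Agent.Lib.MP_9f2731_nt.CG Pool.Agent.Lib.MP_9f2731_nt.CG.Ma

private theorem MfD_log (X : ℕ) (hX : 1 ≤ X) : Real.log (RR X) = Real.log X / 5 := by
  unfold RR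
  rw [Real.log_rpow (by exact_mod_cast hX)]
  ring

/-- the limit -/
private theorem MfD_lim (C η T L : ℝ) (hC : 0 < C) (hη : 0 < η) (hT1 : 1 ≤ T)
    (hT2 : (55 + C) / η ≤ T) (hLT : T ^ 4 ≤ L) :
    50 / L + (Real.log (L + 1) + C) / Real.sqrt L ≤ η := by
  have hL1 : 1 ≤ L := le_trans (one_le_pow₀ hT1) hLT
  obtain ⟨t, ht⟩ : ∃ t : ℝ, t = Real.sqrt (Real.sqrt L) := ⟨_, rfl⟩
  have hs0 : 0 ≤ Real.sqrt L := Real.sqrt_nonneg _
  have ht2 : Real.sqrt L = t * t := by
    rw [ht]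
    exact (Real.mul_self_sqrt hs0).symm
  have hL4 : L = t * t * (t * t) := by
    rw [← ht2]
    exact (Real.mul_self_sqrt (by linarith)).symm
  have htT : T ≤ t := by
    rw [ht]
    refine Real.le_sqrt_of_sq_le (Real.le_sqrt_of_sq_le ?_)
    calc (T ^ 2) ^ 2 = T ^ 4 := by ring
      _ ≤ L := hLT
  have ht1 : 1 ≤ t := hT1.trans htT
  have ht0 : 0 < t := by linarith
  have h1 : Real.log (L + 1) ≤ 1 + 4 * t := by
    calc Real.log (L + 1) ≤ Real.log (2 * L) := Real.log_le_log (by linarith) (by linarith)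
      _ = Real.log 2 + Real.log L := Real.log_mul (by norm_num) (by linarith)
      _ = Real.log 2 + 4 * Real.log t := by
          rw [hL4]
          have : t * t * (t * t) = t ^ 4 := by ring
          rw [this, Real.log_pow]
          norm_num
      _ ≤ 1 + 4 * t := by
          have a := Real.log_two_lt_d9
          have b := Real.log_le_sub_one_of_pos ht0
          linarith
  rw [ht2]
  have h2 : 50 / L ≤ 50 / t := by
    have : t ≤ L := by
      rw [hL4]
      nlinarith [mul_le_mul ht1 ht1 (by norm_num) ht0.le]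
    gcongr
  have h3 : (Real.log (L + 1) + C) / (t * t) ≤ (5 + C) / t := by
    rw [div_le_div_iff₀ (by positivity) ht0]
    have : (Real.log (L + 1) + C) ≤ (5 + C) * t := by nlinarith
    nlinarith
  calc 50 / L + (Real.log (L + 1) + C) / (t * t) ≤ 50 / t + (5 + C) / t := add_le_add h2 h3
    _ = (55 + C) / t := by ring
    _ ≤ η := by
        rw [div_le_iff₀ ht0]
        rw [div_le_iff₀ hη] at hT2
        nlinarith

theorem pMfD : MfDStmt := by
  obtain ⟨C, hC, hM⟩ := Pool.Agent.Lib.MP_aa9ae4_nt.sum_inv_primes_le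
  refine ⟨25, by norm_num, fun κ η hκ hκ1 hη => ?_⟩
  obtain ⟨T, hT⟩ : ∃ T : ℝ, T = max 1 ((55 + C) / η) := ⟨_, rfl⟩
  have hT1 : 1 ≤ T := by
    rw [hT]
    exact le_max_left _ _
  have hT2 : (55 + C) / η ≤ T := by
    rw [hT]
    exact le_max_right _ _
  refine ⟨Real.exp (T ^ 4), fun X hX => ?_⟩
  have hXr : (0 : ℝ) < X := lt_of_lt_of_le (Real.exp_pos _) hX
  obtain ⟨L, hL⟩ : ∃ L : ℝ, L = Real.log X := ⟨_, rfl⟩
  have hLT : T ^ 4 ≤ L := by
    rw [hL, Real.le_log_iff_exp_le hXr]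
    exact hX
  have hT4 : 1 ≤ T ^ 4 := one_le_pow₀ hT1
  have hL1 : 1 ≤ L := hT4.trans hLT
  have hX2 : 2 ≤ X := by
    have h : (2 : ℝ) ≤ X := by
      have := Real.add_one_le_exp (T ^ 4)
      linarith
    exact_mod_cast h
  have hX1r : (1 : ℝ) ≤ X := by exact_mod_cast (by omega : 1 ≤ X)
  have hlim := MfD_lim C η T L hC hη hT1 hT2 hLT
  have hlR : Real.log (RR X) = L / 5 := by
    rw [hL]
    exact MfD_log X (by omega)
  obtain ⟨z, hz⟩ : ∃ z : ℕ, z = ⌊(X : ℝ) ^ κ⌋₊ := ⟨_, rfl⟩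
  have hXk : 1 ≤ (X : ℝ) ^ κ := Real.one_le_rpow hX1r hκ.le
  have hz1 : 1 ≤ z := by
    rw [hz]
    exact Nat.le_floor (by exact_mod_cast hXk)
  have hzX' : (z : ℝ) ≤ (X : ℝ) ^ κ := by
    rw [hz]
    exact Nat.floor_le (by positivity)
  have hz0 : (0 : ℝ) < z := by exact_mod_cast hz1
  have hzl : Real.log z ≤ κ * L := by
    calc Real.log z ≤ Real.log ((X : ℝ) ^ κ) := Real.log_le_log hz0 hzX'
      _ = κ * L := by rw [Real.log_rpow hXr, hL]
  have hzX : z ≤ X := by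
    have : (z : ℝ) ≤ X := by
      calc (z : ℝ) ≤ (X : ℝ) ^ κ := hzX'
        _ ≤ (X : ℝ) ^ (1 : ℝ) := Real.rpow_le_rpow_of_exponent_le hX1r hκ1
        _ = X := Real.rpow_one _
    exact_mod_cast this
  have hzl0 : 0 ≤ Real.log z := Real.log_nonneg (by exact_mod_cast hz1)
  rw [← hz, ← hL, hlR]
  -- the first part
  have hA := Pool.Agent.Lib.MP_aa9ae4_nt.mertensA_le z hz1
  have hl4 : Real.log 4 ≤ 2 := by
    have : Real.log 4 = 2 * Real.log 2 := by
      rw [show (4 : ℝ) = 2 ^ 2 by norm_num, Real.log_pow]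
      norm_num
    have := Real.log_two_lt_d9
    linarith
  have h1 : ∑ p ∈ (Icc 1 z).filter Nat.Prime, 1 / (p : ℝ) * (Real.log p / (L / 5)) ^ 2 ≤
      25 * κ ^ 2 + 50 / L := by
    calc ∑ p ∈ (Icc 1 z).filter Nat.Prime, 1 / (p : ℝ) * (Real.log p / (L / 5)) ^ 2
        ≤ ∑ p ∈ (Icc 1 z).filter Nat.Prime, (25 * (κ * L) / L ^ 2) * (Real.log p / p) := by
          refine Finset.sum_le_sum fun p hp => ?_
          rw [Finset.mem_filter, Finset.mem_Icc] at hp
          have hp0 : (0 : ℝ) < p := by exact_mod_cast hp.2.pos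
          have hlp : 0 ≤ Real.log p := Real.log_nonneg (by exact_mod_cast hp.1.1)
          have hlp2 : Real.log p ≤ κ * L :=
            le_trans (Real.log_le_log hp0 (by exact_mod_cast hp.1.2)) hzl
          have e : 1 / (p : ℝ) * (Real.log p / (L / 5)) ^ 2 =
              (25 * Real.log p / L ^ 2) * (Real.log p / p) := by
            field_simp
            norm_num
          rw [e]
          gcongr
      _ = (25 * (κ * L) / L ^ 2) * Pool.Agent.Lib.MP_aa9ae4_nt.mertensA z := by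
          rw [← Finset.mul_sum]
          rfl
      _ ≤ (25 * (κ * L) / L ^ 2) * (κ * L + 2) := by
          refine mul_le_mul_of_nonneg_left (by linarith) (by positivity)
      _ = 25 * κ ^ 2 + 50 * κ / L := by
          field_simp
          ring
      _ ≤ 25 * κ ^ 2 + 50 / L := by
          gcongr
          linarith
  have h2 : ∑ p ∈ (Icc 1 z).filter Nat.Prime, 1 / (p : ℝ) * (1 / Real.sqrt L) ≤
      (Real.log (L + 1) + C) / Real.sqrt L := by
    rw [← Finset.sum_mul, mul_one_div]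
    have h3 : ∑ p ∈ (Icc 1 z).filter Nat.Prime, 1 / (p : ℝ) ≤ Real.log (L + 1) + C := by
      refine le_trans ?_ (hL ▸ hM X hX2)
      refine Finset.sum_le_sum_of_subset_of_nonneg ?_ fun p _ _ => by positivity
      exact Finset.filter_subset_filter _ (Finset.Icc_subset_Icc_right hzX)
    gcongr
  calc ∑ p ∈ (Icc 1 z).filter Nat.Prime,
        1 / (p : ℝ) * ((Real.log p / (L / 5)) ^ 2 + 1 / Real.sqrt L)
      = ∑ p ∈ (Icc 1 z).filter Nat.Prime, 1 / (p : ℝ) * (Real.log p / (L / 5)) ^ 2 +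
        ∑ p ∈ (Icc 1 z).filter Nat.Prime, 1 / (p : ℝ) * (1 / Real.sqrt L) := by
        rw [← Finset.sum_add_distrib]
        exact Finset.sum_congr rfl fun p _ => by ring
    _ ≤ 25 * κ ^ 2 + η := by linarith

end Pool.Agent.Lib.MP_9f2731_nt.CG.Mf
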