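import Pool.Agent.Lib.MP_9f2731_nt.CG.Mf.Spec

set_option autoImplicit false

namespace Pool.Agent.Lib.MP_9f2731_nt.CG.Mf

open Finset
open Pool.Agent.Lib.MP_9f2731_nt.GP Pool.Agent.Lib.MP_9f2731_nt.GP.Sv Pool.Agent.Lib.MP_9f2731_nt.QL
  Pool.Agent.Lib.MP_9f2731_nt.QL.Sw Pool.Agent.Lib.MP_9f2731_nt.CG Pool.Agent.Lib.MP_9f2731_nt.CG.Ma

private theorem MfE_card (V n N : ℕ) (R : ℝ) (hn : n ≠ 0) (hN : n.primeFactors.card ≤ N) :
    ((PqV V R).divisors.filter (fun d => d ∣ n)).card ≤ 2 ^ N := by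
  calc ((PqV V R).divisors.filter (fun d => d ∣ n)).card ≤ n.primeFactors.powerset.card := by
        refine Finset.card_le_card_of_injOn (fun d => d.primeFactors) ?_ ?_
        · intro d hd
          have hd' := Finset.mem_filter.1 hd
          exact Finset.mem_powerset.2 (Nat.primeFactors_mono hd'.2 hn)
        · intro d hd e he h
          have hd1 : Squarefree d := PqV_squarefree.squarefree_of_dvd
            (Nat.dvd_of_mem_divisors (Finset.mem_filter.1 hd).1)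
          have he1 : Squarefree e := PqV_squarefree.squarefree_of_dvd
            (Nat.dvd_of_mem_divisors (Finset.mem_filter.1 he).1)
          rw [← Nat.prod_primeFactors_of_squarefree hd1, ← Nat.prod_primeFactors_of_squarefree he1]
          exact Finset.prod_congr h fun p _ => rfl
    _ = 2 ^ n.primeFactors.card := Finset.card_powerset _
    _ ≤ 2 ^ N := Nat.pow_le_pow_right (by norm_num) hN

private theorem MfE_AF (V n N : ℕ) (R B : ℝ) (f : ℕ → ℝ) (hn : n ≠ 0)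
    (hN : n.primeFactors.card ≤ N) (hB : 0 ≤ B) (hf : ∀ d, |f d| ≤ B) :
    |AF V R f n| ≤ 2 ^ N * B := by
  unfold AF
  calc |∑ d ∈ (PqV V R).divisors, ((ArithmeticFunction.moebius d : ℤ) : ℝ) * ind d n * f d|
      ≤ ∑ d ∈ (PqV V R).divisors, |((ArithmeticFunction.moebius d : ℤ) : ℝ) * ind d n * f d| :=
        Finset.abs_sum_le_sum_abs _ _
    _ ≤ ∑ d ∈ (PqV V R).divisors, if d ∣ n then B else 0 := by
        refine Finset.sum_le_sum fun d _ => ?_
        unfold ind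
        split_ifs with h
        · rw [mul_one, abs_mul]
          have h1 : |((ArithmeticFunction.moebius d : ℤ) : ℝ)| ≤ 1 := by
            rw [← Int.cast_abs]
            exact_mod_cast ArithmeticFunction.abs_moebius_le_one
          calc |((ArithmeticFunction.moebius d : ℤ) : ℝ)| * |f d| ≤ 1 * B :=
                mul_le_mul h1 (hf d) (abs_nonneg _) (by norm_num)
            _ = B := one_mul _
        · simp
    _ = (((PqV V R).divisors.filter (fun d => d ∣ n)).card : ℝ) * B := by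
        rw [← Finset.sum_filter, Finset.sum_const, nsmul_eq_mul]
    _ ≤ 2 ^ N * B := by
        refine mul_le_mul_of_nonneg_right ?_ hB
        exact_mod_cast MfE_card V n N R hn hN

private theorem MfE_om (X n : ℕ) (κ : ℝ) (hX : 2 ≤ X) (hκ : 0 < κ) (hn : n ≠ 0)
    (hnX : (n : ℝ) ≤ (X : ℝ) ^ 3) (hr : Rgh ((X : ℝ) ^ κ) n) :
    n.primeFactors.card ≤ ⌊3 / κ⌋₊ := by
  have hX2 : (2 : ℝ) ≤ X := by exact_mod_cast hX
  have hX0 : (0 : ℝ) < X := by linarith
  have hXk : 0 < (X : ℝ) ^ κ := Real.rpow_pos_of_pos hX0 κ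
  have hl : 0 < Real.log X := Real.log_pos (by linarith)
  refine Nat.le_floor ?_
  rw [le_div_iff₀ hκ]
  have h1 : ((X : ℝ) ^ κ) ^ n.primeFactors.card ≤ n := by
    calc ((X : ℝ) ^ κ) ^ n.primeFactors.card = ∏ p ∈ n.primeFactors, (X : ℝ) ^ κ := by
          rw [Finset.prod_const]
      _ ≤ ∏ p ∈ n.primeFactors, (p : ℝ) := by
          refine Finset.prod_le_prod (fun p _ => hXk.le) fun p hp => ?_
          exact (hr p (Nat.prime_of_mem_primeFactors hp) (Nat.dvd_of_mem_primeFactors hp)).le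
      _ = ((∏ p ∈ n.primeFactors, p : ℕ) : ℝ) := by push_cast; rfl
      _ ≤ n := by
          exact_mod_cast Nat.le_of_dvd (Nat.pos_of_ne_zero hn) (Nat.prod_primeFactors_dvd n)
  have h2 := Real.log_le_log (pow_pos hXk _) (h1.trans hnX)
  rw [Real.log_pow, Real.log_rpow hX0, Real.log_pow] at h2
  have h3 : (n.primeFactors.card : ℝ) * κ * Real.log X ≤ 3 * Real.log X := by
    calc (n.primeFactors.card : ℝ) * κ * Real.log X =
          (n.primeFactors.card : ℝ) * (κ * Real.log X) := by ring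
      _ ≤ ((3 : ℕ) : ℝ) * Real.log X := h2
      _ = 3 * Real.log X := by norm_num
  exact le_of_mul_le_mul_right h3 hl

theorem pMfE (h1 : PfBStmt) : MfEStmt := by
  intro K r P bd 𝒜 hv κ hκ
  obtain ⟨M, hM⟩ : ∃ M : ℝ, M = ∑ i, (P i).M := ⟨_, rfl⟩
  have hM0 : ∀ i, 0 ≤ (P i).M := fun i => by
    unfold Pf.M
    exact Finset.sum_nonneg fun s _ => abs_nonneg _
  have hMi : ∀ i, (P i).M ≤ M := fun i => by
    rw [hM]
    exact Finset.single_le_sum (f := fun j => (P j).M) (fun j _ => hM0 j) (mem_univ i)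
  have hMp : 0 ≤ M := by
    rw [hM]
    exact Finset.sum_nonneg fun j _ => hM0 j
  have hP : ∀ i, Pok (P i) := fun i s => ⟨(hv.be i s).1, (hv.be i s).2.trans (hv.one i)⟩
  obtain ⟨N, hN⟩ : ∃ N : ℕ, N = ⌊3 / κ⌋₊ := ⟨_, rfl⟩
  refine ⟨((𝒜.card : ℝ) * (2 ^ N * M) ^ K) ^ 2 + 1, 2, by positivity, ?_⟩
  intro X w V p0 b a hX hS hb hr
  have hX2 : 2 ≤ X := by exact_mod_cast hX
  have hX1 : (1 : ℝ) ≤ X := by exact_mod_cast (by omega : 1 ≤ X)
  have hR1 : 1 ≤ RR X := by
    unfold RR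
    exact Real.one_le_rpow hX1 (by norm_num)
  have hl0 : 0 ≤ Real.log (RR X) := Real.log_nonneg hR1
  rw [Finset.mem_Icc] at hb
  have hnX : ∀ j, ((a j * b + 1 : ℕ) : ℝ) ≤ (X : ℝ) ^ 3 := by
    intro j
    have h : a j * b + 1 ≤ X ^ 3 := by
      have h2 : a j * b ≤ X * X := Nat.mul_le_mul (hS.haX j) hb.2
      have h3 : X ^ 3 = X * (X * X) := by ring
      have h4 : 2 * (X * X) ≤ X * (X * X) := Nat.mul_le_mul_right _ hX2
      have h5 : 1 ≤ X * X := Nat.mul_pos (by omega) (by omega)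
      omega
    exact_mod_cast h
  have hAF : ∀ v ∈ 𝒜, ∀ j, |AF (V * p0) (RR X) (pfn (P (v j)) (RR X)) (a j * b + 1)| ≤
      2 ^ N * (M * Real.log (RR X) ^ 2) := by
    intro v _ j
    refine MfE_AF (V * p0) (a j * b + 1) N (RR X) _ _ (Nat.succ_ne_zero _) ?_ (by positivity)
      fun d => ?_
    · rw [hN]
      exact MfE_om X _ κ hX2 hκ (Nat.succ_ne_zero _) (hnX j) (hr j)
    · refine ((h1 (P (v j)) (RR X) hR1 (hP _)).1 d).trans ?_
      exact mul_le_mul_of_nonneg_right (hMi _) (by positivity)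
  have hW : |WW (V * p0) X P 𝒜 a b| ≤
      (𝒜.card : ℝ) * (2 ^ N * (M * Real.log (RR X) ^ 2)) ^ K := by
    unfold WW
    calc |∑ v ∈ 𝒜, ∏ j, AF (V * p0) (RR X) (pfn (P (v j)) (RR X)) (a j * b + 1)|
        ≤ ∑ v ∈ 𝒜, |∏ j, AF (V * p0) (RR X) (pfn (P (v j)) (RR X)) (a j * b + 1)| :=
          Finset.abs_sum_le_sum_abs _ _
      _ ≤ ∑ v ∈ 𝒜, (2 ^ N * (M * Real.log (RR X) ^ 2)) ^ K := by
          refine Finset.sum_le_sum fun v hv => ?_
          rw [Finset.abs_prod]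
          calc ∏ j, |AF (V * p0) (RR X) (pfn (P (v j)) (RR X)) (a j * b + 1)|
              ≤ ∏ _j : Fin K, (2 ^ N * (M * Real.log (RR X) ^ 2)) :=
                Finset.prod_le_prod (fun j _ => abs_nonneg _) fun j _ => hAF v hv j
            _ = (2 ^ N * (M * Real.log (RR X) ^ 2)) ^ K := by
                rw [Finset.prod_const, Finset.card_univ, Fintype.card_fin]
      _ = (𝒜.card : ℝ) * (2 ^ N * (M * Real.log (RR X) ^ 2)) ^ K := by
          rw [Finset.sum_const, nsmul_eq_mul]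
  calc WW (V * p0) X P 𝒜 a b ^ 2 = |WW (V * p0) X P 𝒜 a b| ^ 2 := (sq_abs _).symm
    _ ≤ ((𝒜.card : ℝ) * (2 ^ N * (M * Real.log (RR X) ^ 2)) ^ K) ^ 2 := by
        gcongr
    _ = ((𝒜.card : ℝ) * (2 ^ N * M) ^ K) ^ 2 * Real.log (RR X) ^ (4 * K) := by
        have : (2 ^ N * (M * Real.log (RR X) ^ 2)) ^ K =
            (2 ^ N * M) ^ K * Real.log (RR X) ^ (2 * K) := by
          rw [pow_mul, ← mul_pow]
          ring
        rw [this]
        ring
    _ ≤ (((𝒜.card : ℝ) * (2 ^ N * M) ^ K) ^ 2 + 1) * Real.log (RR X) ^ (4 * K) := by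
        refine mul_le_mul_of_nonneg_right (by linarith) (by positivity)

end Pool.Agent.Lib.MP_9f2731_nt.CG.Mf
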