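import Pool.Agent.Lib.MP_9f2731_nt.CG.Mf.Spec

/-!
MP_9f2731_nt, THEOREM CG, chapter Mf, module MfF: the main step.
-/

namespace Pool.Agent.Lib.MP_9f2731_nt.CG.Mf

open Finset
open Pool.Agent.Lib.MP_9f2731_nt.GP
open Pool.Agent.Lib.MP_9f2731_nt.GP.Sv
open Pool.Agent.Lib.MP_9f2731_nt.QL
open Pool.Agent.Lib.MP_9f2731_nt.QL.Sw
open Pool.Agent.Lib.MP_9f2731_nt.CG
open Pool.Agent.Lib.MP_9f2731_nt.CG.Ma

open Classical in
/-- the combinatorial core -/
private theorem core (s : Finset ℕ) (w : ℕ → ℝ) (N : ℕ → ℕ) (rg : ℕ → Prop)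
    (K m : ℕ) (Z I X B : ℝ) (hw : ∀ b, 0 ≤ w b) (hN : ∀ b, N b ≤ K)
    (h1 : Z * ((m + 2) * I) - K * X ≤ ∑ b ∈ s, w b * N b)
    (h2 : m * ∑ b ∈ s, w b ≤ Z * (m * I + I / 4) + m * X)
    (s1 s2 : Finset ℕ) (hs1 : ∀ b, b ∈ s1 ↔ b ∈ s ∧ ¬ rg b)
    (hs2 : ∀ b, b ∈ s2 ↔ b ∈ s ∧ (rg b ∧ m + 1 ≤ N b))
    (h3 : K * ∑ b ∈ s1, w b ≤ Z * I / 4)
    (h4 : ∀ b ∈ s, rg b → w b ≤ B)
    (h5 : (K + m) * X ≤ Z * I / 2) :
    Z * I ≤ K * B * (s2.card : ℝ) := by
  have e1 : s1 = s.filter (fun b => ¬ rg b) := by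
    ext b
    rw [hs1, Finset.mem_filter]
  have e2 : s2 = s.filter (fun b => rg b ∧ m + 1 ≤ N b) := by
    ext b
    rw [hs2, Finset.mem_filter]
  rw [e1] at h3
  rw [e2]
  have hsplit : ∑ b ∈ s.filter rg, w b * ((N b : ℝ) - m) +
      ∑ b ∈ s.filter (fun b => ¬ rg b), w b * ((N b : ℝ) - m) =
      ∑ b ∈ s, w b * ((N b : ℝ) - m) := Finset.sum_filter_add_sum_filter_not s rg _
  have hall : ∑ b ∈ s, w b * ((N b : ℝ) - m) = ∑ b ∈ s, w b * N b - m * ∑ b ∈ s, w b := by
    rw [Finset.mul_sum, ← Finset.sum_sub_distrib]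
    apply Finset.sum_congr rfl
    intro b _
    ring
  have hnr : ∑ b ∈ s.filter (fun b => ¬ rg b), w b * ((N b : ℝ) - m) ≤
      K * ∑ b ∈ s.filter (fun b => ¬ rg b), w b := by
    rw [Finset.mul_sum]
    apply Finset.sum_le_sum
    intro b _
    rw [mul_comm]
    apply mul_le_mul_of_nonneg_right _ (hw b)
    have := hN b
    have h6 : (N b : ℝ) ≤ K := by exact_mod_cast this
    have h7 : (0 : ℝ) ≤ m := Nat.cast_nonneg m
    linarith
  have hr : ∑ b ∈ s.filter rg, w b * ((N b : ℝ) - m) ≤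
      K * B * ((s.filter (fun b => rg b ∧ m + 1 ≤ N b)).card : ℝ) := by
    rw [← Finset.filter_filter]
    rw [Finset.card_filter (fun b => m + 1 ≤ N b) (s.filter rg)]
    push_cast
    rw [Finset.mul_sum]
    apply Finset.sum_le_sum
    intro b hb
    rw [Finset.mem_filter] at hb
    split_ifs with hm
    · have h6 : (N b : ℝ) ≤ K := by exact_mod_cast hN b
      have h7 : (0 : ℝ) ≤ m := Nat.cast_nonneg m
      have h8 : (m : ℝ) + 1 ≤ N b := by exact_mod_cast hm
      have h9 := h4 b hb.1 hb.2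
      calc w b * ((N b : ℝ) - m) ≤ w b * K := by
            apply mul_le_mul_of_nonneg_left _ (hw b)
            linarith
        _ ≤ B * K := mul_le_mul_of_nonneg_right h9 (Nat.cast_nonneg K)
        _ = K * B * 1 := by ring
    · have h8 : (N b : ℝ) ≤ m := by
        have : N b ≤ m := by omega
        exact_mod_cast this
      rw [mul_zero]
      exact mul_nonpos_of_nonneg_of_nonpos (hw b) (by linarith)
  linarith

private theorem card_lt_le (L K : ℕ) :
    ((univ.filter (fun l : Fin L => (l : ℕ) < K)).card : ℝ) ≤ K := by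
  have h : (univ.filter (fun l : Fin L => (l : ℕ) < K)).card ≤ (range K).card := by
    apply Finset.card_le_card_of_injOn (fun l : Fin L => (l : ℕ))
    · intro l hl
      simpa using hl
    · intro a _ b _ hab
      exact Fin.ext hab
  rw [Finset.card_range] at h
  exact_mod_cast h

private theorem dlV_pos {V : ℕ} (hV : 1 ≤ V) : 0 < dlV V := by
  unfold dlV
  have h1 : 0 < V.totient := Nat.totient_pos.2 hV
  have h2 : (0 : ℝ) < V := by exact_mod_cast hV
  have h3 : (0 : ℝ) < V.totient := by exact_mod_cast h1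
  positivity

private theorem dlV_le_one {V : ℕ} (hV : 1 ≤ V) : dlV V ≤ 1 := by
  unfold dlV
  have h2 : (0 : ℝ) < V := by exact_mod_cast hV
  rw [div_le_one h2]
  exact_mod_cast Nat.totient_le V

private theorem dlV_mul_le {V p : ℕ} (hV : 1 ≤ V) (hp : p.Prime) (h : ¬ p ∣ V) :
    dlV (V * p) ≤ dlV V := by
  unfold dlV
  have hc : V.Coprime p := ((Nat.Prime.coprime_iff_not_dvd hp).2 h).symm
  rw [Nat.totient_mul hc, Nat.totient_prime hp]
  have h2 : (0 : ℝ) < V := by exact_mod_cast hV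
  have h3 : (0 : ℝ) < p := by exact_mod_cast hp.pos
  push_cast
  rw [div_le_div_iff₀ (by positivity) h2]
  have h4 : ((p - 1 : ℕ) : ℝ) ≤ p := by
    have : p - 1 ≤ p := Nat.sub_le p 1
    exact_mod_cast this
  have h5 : (0 : ℝ) ≤ V.totient := Nat.cast_nonneg _
  nlinarith [mul_le_mul_of_nonneg_left h4 h5, mul_nonneg h5 h2.le]

private theorem fin_step (K L : ℕ) (I C3 q X lR G Z cd : ℝ) (hK : (0 : ℝ) < K) (hI : 0 < I)
    (hC : 0 < C3) (hX : 0 < X) (hl : 0 < lR) (hq : 0 ≤ q) (hb : q * lR ^ 4 ≤ G)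
    (hZ : Z = X * G ^ L) (hc : Z * I ≤ K * (C3 * lR ^ (4 * L)) * cd) :
    I / (K * C3) * q ^ L * X ≤ cd := by
  have h1 : (q * lR ^ 4) ^ L ≤ G ^ L := pow_le_pow_left₀ (by positivity) hb L
  have hpos : 0 < K * (C3 * lR ^ (4 * L)) := by positivity
  refine le_of_mul_le_mul_left ?_ hpos
  refine le_trans ?_ hc
  have h2 : K * (C3 * lR ^ (4 * L)) * (I / (K * C3) * q ^ L * X) = X * I * (q * lR ^ 4) ^ L := by
    rw [mul_pow, ← pow_mul]
    field_simp
  rw [h2, hZ]
  have h3 := mul_le_mul_of_nonneg_left h1 (show 0 ≤ X * I by positivity)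
  linarith

open Classical in
theorem pMfF (hVar : VarLStmt) (hA : MfAStmt) (hB : MfBStmt) (hG : MfGStmt) (hE : MfEStmt)
    (hH : MfHStmt) : MfFStmt := by
  intro m
  obtain ⟨K, hK1, hVL⟩ := hVar (50 * (m + 3))
  refine ⟨K, ?_⟩
  intro L hKL
  obtain ⟨r, P, bd, 𝒜, hV, hΛ⟩ := hVL L hKL
  have hI := hV.pos
  set I := Iq P 𝒜 with hId
  have hK0 : (0 : ℝ) < K := by exact_mod_cast hK1
  have hm0 : (0 : ℝ) ≤ m := Nat.cast_nonneg m
  obtain ⟨κ, w1, XG, hκ, hGb⟩ := hG L r P bd 𝒜 hV (I / (4 * K)) (by positivity)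
  obtain ⟨XA, hAb⟩ := hA L r P bd 𝒜 hV (I / (4 * (m + 1))) (by positivity)
  obtain ⟨XB, hBb⟩ := hB L r P bd 𝒜 hV (I / K) (by positivity)
  obtain ⟨C3, XE, hC3, hEb⟩ := hE L r P bd 𝒜 hV κ hκ
  obtain ⟨XH, hHb⟩ := hH
  refine ⟨κ, I / (K * C3), w1,
    max (max (max XG XA) (max XB XE)) (max XH (Real.exp (5 * max 1 (2 * (K + m) / I)))),
    hκ, by positivity, ?_⟩
  intro X w V p0 a hX hp0 hS hBv
  have hXG : XG ≤ X := le_trans (le_trans (le_trans (le_max_left _ _) (le_max_left _ _)) (le_max_left _ _)) hX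
  have hXA : XA ≤ X := le_trans (le_trans (le_trans (le_max_right _ _) (le_max_left _ _)) (le_max_left _ _)) hX
  have hXB : XB ≤ X := le_trans (le_trans (le_trans (le_max_left _ _) (le_max_right _ _)) (le_max_left _ _)) hX
  have hXE : XE ≤ X := le_trans (le_trans (le_trans (le_max_right _ _) (le_max_right _ _)) (le_max_left _ _)) hX
  have hXH : XH ≤ X := le_trans (le_trans (le_max_left _ _) (le_max_right _ _)) hX
  have hXe : Real.exp (5 * max 1 (2 * (K + m) / I)) ≤ X :=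
    le_trans (le_trans (le_max_right _ _) (le_max_right _ _)) hX
  have hXpos : (0 : ℝ) < X := lt_of_lt_of_le (Real.exp_pos _) hXe
  have hlogX : 5 * max 1 (2 * (K + m) / I) ≤ Real.log X := by
    rw [← Real.log_exp (5 * max 1 (2 * (K + m) / I))]
    exact Real.log_le_log (Real.exp_pos _) hXe
  have hX1 : (1 : ℝ) ≤ X := by
    have h1 : (1 : ℝ) ≤ Real.exp (5 * max 1 (2 * (K + m) / I)) := by
      apply Real.one_le_exp
      have := le_max_left (1 : ℝ) (2 * (K + m) / I)
      linarith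
    linarith
  have hlogR : Real.log (RR X) = Real.log X / 5 := by
    unfold RR
    rw [Real.log_rpow hXpos]
    ring
  have hlR1 : 1 ≤ Real.log (RR X) := by
    rw [hlogR]
    have := le_max_left (1 : ℝ) (2 * (K + m) / I)
    linarith
  have hlR2 : 2 * (K + m) / I ≤ Real.log (RR X) := by
    rw [hlogR]
    have := le_max_right (1 : ℝ) (2 * (K + m) / I)
    linarith
  have hVp : 1 ≤ V * p0 := Nat.mul_pos hS.hV hS.hp.pos
  have hd := dlV_pos hVp
  have hd1 := dlV_le_one hVp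
  have hL1 : 1 ≤ L := le_trans hK1 hKL
  have hGG : Real.log (RR X) ≤ GG (V * p0) X := by
    unfold GG
    rw [le_div_iff₀ hd]
    have h1 : Real.log (RR X) ≤ Real.log (RR X) ^ 3 := by
      exact le_self_pow₀ hlR1 (by norm_num)
    have h2 : Real.log (RR X) * dlV (V * p0) ≤ Real.log (RR X) := by
      apply mul_le_of_le_one_right (by linarith) hd1
    linarith
  have hGL : Real.log (RR X) ≤ GG (V * p0) X ^ L := by
    exact le_trans hGG (le_self_pow₀ (le_trans hlR1 hGG) (by omega))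
  set G := GG (V * p0) X with hGd
  set lR := Real.log (RR X) with hlRd
  have hGpos : 0 < G := by linarith
  set Z : ℝ := X * G ^ L with hZd
  have hZpos : 0 < Z := by positivity
  set wt : ℕ → ℝ := fun b => WW (V * p0) X P 𝒜 a b ^ 2 with hwtd
  have hwt : ∀ b, 0 ≤ wt b := fun b => sq_nonneg _
  set N : ℕ → ℕ := fun b => (univ.filter (fun j : Fin L => (j : ℕ) < K ∧ (a j * b + 1).Prime)).card
    with hNd
  set F : Finset (Fin L) := univ.filter (fun l : Fin L => (l : ℕ) < K) with hFd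
  have hFc : (F.card : ℝ) ≤ K := card_lt_le L K
  have hNK : ∀ b, N b ≤ K := by
    intro b
    have h1 : N b ≤ F.card := by
      apply Finset.card_le_card
      intro j hj
      rw [Finset.mem_filter] at hj ⊢
      exact ⟨hj.1, hj.2.1⟩
    have h2 : F.card ≤ K := by exact_mod_cast hFc
    omega
  -- (1)
  have h1 : Z * ((m + 2) * I) - K * X ≤ ∑ b ∈ Icc 1 X, wt b * N b := by
    have hone : ∀ l ∈ F, Z / 50 * (Jq P 𝒜 l - I / K) - X ≤
        ∑ b ∈ Icc 1 X, (if (a l * b + 1).Prime then wt b else 0) := by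
      intro l hl
      have hlK : (l : ℕ) < K := (Finset.mem_filter.1 hl).2
      have hle : ∑ b ∈ Bp X (a l), wt b ≤
          ∑ b ∈ Icc 1 X, (if (a l * b + 1).Prime then wt b else 0) := by
        rw [← Finset.sum_filter]
        apply Finset.sum_le_sum_of_subset_of_nonneg
        · intro b hb
          unfold Bp at hb
          rw [Finset.mem_filter] at hb ⊢
          exact ⟨hb.1, hb.2.2⟩
        · intro b _ _
          exact hwt b
      refine le_trans ?_ hle
      by_cases hJ : I / K ≤ Jq P 𝒜 l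
      · have h2 := hBb X w V p0 a l hXB hS (hBv l hlK)
        have h3 := hHb X w V p0 L a l hXH hS (hBv l hlK)
        have h4 := (abs_le.1 h2).1
        have h5 : X / 50 * G ^ L * (Jq P 𝒜 l - I / K) ≤
            ((Bp X (a l)).card : ℝ) * (lR ^ 4 * G ^ (L - 1)) * (Jq P 𝒜 l - I / K) :=
          mul_le_mul_of_nonneg_right h3 (by linarith)
        have h6 : ((Bp X (a l)).card : ℝ) * (lR ^ 4 * G ^ (L - 1)) * (Jq P 𝒜 l - I / K) =
            ((Bp X (a l)).card : ℝ) * (lR ^ 4 * G ^ (L - 1) * Jq P 𝒜 l) -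
            ((Bp X (a l)).card : ℝ) * (lR ^ 4 * G ^ (L - 1) * (I / K)) := by ring
        have h7 : X / 50 * G ^ L * (Jq P 𝒜 l - I / K) = Z / 50 * (Jq P 𝒜 l - I / K) := by
          rw [hZd]
          ring
        rw [h6, h7] at h5
        linarith
      · have h2 : 0 ≤ ∑ b ∈ Bp X (a l), wt b := Finset.sum_nonneg (fun b _ => hwt b)
        have h3 : Z / 50 * (Jq P 𝒜 l - I / K) ≤ 0 :=
          mul_nonpos_of_nonneg_of_nonpos (by positivity) (by linarith)
        linarith
    have hswap : ∑ b ∈ Icc 1 X, wt b * N b =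
        ∑ l ∈ F, ∑ b ∈ Icc 1 X, (if (a l * b + 1).Prime then wt b else 0) := by
      rw [Finset.sum_comm]
      apply Finset.sum_congr rfl
      intro b _
      rw [← Finset.sum_filter, Finset.sum_const, nsmul_eq_mul, mul_comm]
      congr 2
      rw [hFd, Finset.filter_filter]
    rw [hswap]
    refine le_trans ?_ (Finset.sum_le_sum hone)
    rw [Finset.sum_sub_distrib, ← Finset.mul_sum, Finset.sum_sub_distrib, Finset.sum_const,
      Finset.sum_const, nsmul_eq_mul, nsmul_eq_mul]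
    have h2 : (F.card : ℝ) * (I / K) ≤ I := by
      calc (F.card : ℝ) * (I / K) ≤ K * (I / K) :=
            mul_le_mul_of_nonneg_right hFc (by positivity)
        _ = I := by field_simp
    have h3 : (F.card : ℝ) * X ≤ K * X := mul_le_mul_of_nonneg_right hFc hXpos.le
    have h4 : 50 * ((m : ℝ) + 3) * I - I ≤ ∑ l ∈ F, Jq P 𝒜 l - (F.card : ℝ) * (I / K) := by
      linarith
    have h5 := mul_le_mul_of_nonneg_left h4 (show (0 : ℝ) ≤ Z / 50 by positivity)
    have h6 : 0 ≤ Z * I := by positivity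
    have h7 : Z / 50 * (50 * ((m : ℝ) + 3) * I - I) = Z * ((m + 2) * I) + 49 / 50 * (Z * I) := by
      ring
    rw [h7] at h5
    linarith
  -- (2)
  have h2 : m * ∑ b ∈ Icc 1 X, wt b ≤ Z * (m * I + I / 4) + m * X := by
    have h3 := hAb X w V p0 1 0 a hXA hS (Or.inl rfl)
    have hf : (Icc 1 X).filter (fun b => b ≡ 0 [MOD 1]) = Icc 1 X := by
      apply Finset.filter_true_of_mem
      intro b _
      exact Nat.modEq_one
    rw [hf] at h3
    have h4 := (abs_le.1 h3).2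
    rw [Nat.cast_one, div_one] at h4
    have h5 : (X : ℝ) ^ ((3 : ℝ) / 5) ≤ X := by
      calc (X : ℝ) ^ ((3 : ℝ) / 5) ≤ (X : ℝ) ^ (1 : ℝ) :=
            Real.rpow_le_rpow_of_exponent_le hX1 (by norm_num)
        _ = X := Real.rpow_one _
    have h6 : ∑ b ∈ Icc 1 X, wt b ≤ Z * I + Z * (I / (4 * (m + 1))) + X := by
      have h7 : (X : ℝ) * (G ^ L * I) = Z * I := by
        rw [hZd]
        ring
      have h8 : (X : ℝ) * (G ^ L * (I / (4 * (m + 1)))) = Z * (I / (4 * (m + 1))) := by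
        rw [hZd]
        ring
      rw [h7, h8] at h4
      linarith
    have h7 := mul_le_mul_of_nonneg_left h6 hm0
    have h8 : (m : ℝ) * (I / (4 * (m + 1))) ≤ I / 4 := by
      rw [← mul_div_assoc, div_le_div_iff₀ (by positivity) (by norm_num)]
      nlinarith [hI, hm0]
    have h9 := mul_le_mul_of_nonneg_left h8 hZpos.le
    have h10 : (m : ℝ) * (Z * I + Z * (I / (4 * (m + 1))) + X) =
        Z * (m * I) + Z * (m * (I / (4 * (m + 1)))) + m * X := by ring
    have h11 : Z * (m * I + I / 4) + m * X = Z * (m * I) + Z * (I / 4) + m * X := by ring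
    rw [h11]
    rw [h10] at h7
    linarith
  -- (3)
  have h3 : K * ∑ b ∈ (Icc 1 X).filter (fun b => ¬ ∀ j, Rgh ((X : ℝ) ^ κ) (a j * b + 1)), wt b ≤
      Z * I / 4 := by
    have h4 := hGb X w V p0 a hXG hp0 hS
    have h5 := mul_le_mul_of_nonneg_left h4 hK0.le
    have h6 : (K : ℝ) * (X * (G ^ L * (I / (4 * K)))) = Z * I / 4 := by
      rw [hZd]
      field_simp
    rw [h6] at h5
    exact h5
  have h4 : ∀ b ∈ Icc 1 X, (∀ j, Rgh ((X : ℝ) ^ κ) (a j * b + 1)) → wt b ≤ C3 * lR ^ (4 * L) := by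
    intro b hb hr
    exact hEb X w V p0 b a hXE hS hb hr
  have h5 : (K + m) * X ≤ Z * I / 2 := by
    have h6 : 2 * (K + m) / I ≤ G ^ L := le_trans hlR2 hGL
    rw [div_le_iff₀ hI] at h6
    have h7 := mul_le_mul_of_nonneg_left h6 hXpos.le
    rw [hZd]
    linarith
  have hc := core (Icc 1 X) wt N (fun b => ∀ j, Rgh ((X : ℝ) ^ κ) (a j * b + 1)) K m Z I X
    (C3 * lR ^ (4 * L)) hwt hNK h1 h2 _
    ((Icc 1 X).filter (fun b => (∀ j, Rgh ((X : ℝ) ^ κ) (a j * b + 1)) ∧
      m + 1 ≤ (univ.filter (fun j : Fin L => (j : ℕ) < K ∧ (a j * b + 1).Prime)).card))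
    (fun b => Finset.mem_filter) (fun b => Finset.mem_filter) h3 h4 h5
  have hdV := dlV_pos hS.hV
  have hdle := dlV_mul_le hS.hV hS.hp hS.hpV
  have hlX : 0 < Real.log X := by
    have := le_max_left (1 : ℝ) (2 * (K + m) / I)
    linarith
  have hbase : ((V : ℝ) / V.totient) / Real.log X * lR ^ 4 ≤ G := by
    have e1 : ((V : ℝ) / V.totient) = 1 / dlV V := by
      unfold dlV
      rw [one_div_div]
    have e2 : 1 / dlV V ≤ 1 / dlV (V * p0) := one_div_le_one_div_of_le hd hdle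
    have e3 : lR / Real.log X ≤ 1 := by
      rw [div_le_one hlX, hlogR]
      linarith
    have e4 : ((V : ℝ) / V.totient) / Real.log X * lR ^ 4 =
        (1 / dlV V) * lR ^ 3 * (lR / Real.log X) := by
      rw [e1]
      ring
    rw [e4]
    have hlR0 : 0 < lR := by linarith
    calc (1 / dlV V) * lR ^ 3 * (lR / Real.log X) ≤ (1 / dlV V) * lR ^ 3 * 1 :=
          mul_le_mul_of_nonneg_left e3 (by positivity)
      _ = (1 / dlV V) * lR ^ 3 := mul_one _
      _ ≤ (1 / dlV (V * p0)) * lR ^ 3 := mul_le_mul_of_nonneg_right e2 (by positivity)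
      _ = G := by
        rw [hGd]
        unfold GG
        ring
  exact fin_step K L I C3 (((V : ℝ) / V.totient) / Real.log X) X lR G Z _ hK0 hI hC3 hXpos
    (by linarith) (by positivity) hbase hZd hc

end Pool.Agent.Lib.MP_9f2731_nt.CG.Mf
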