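import Pool.Agent.Lib.MP_9f2731_nt.CG.Mf.Spec

set_option autoImplicit false

namespace Pool.Agent.Lib.MP_9f2731_nt.CG.Mf

open Finset
open Pool.Agent.Lib.MP_9f2731_nt.GP Pool.Agent.Lib.MP_9f2731_nt.GP.Sv Pool.Agent.Lib.MP_9f2731_nt.QL
  Pool.Agent.Lib.MP_9f2731_nt.QL.Sw Pool.Agent.Lib.MP_9f2731_nt.CG Pool.Agent.Lib.MP_9f2731_nt.CG.Ma

private theorem MfG_log (X : ℕ) (hX : 1 ≤ X) : Real.log (RR X) = Real.log X / 5 := by
  unfold RR
  rw [Real.log_rpow (by exact_mod_cast hX)]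
  ring

/-- the class of the solutions modulo p0 -/
private theorem MfG_class (p a b b0 : ℕ) (hp : p.Prime) (hb : p ∣ a * b + 1)
    (hb0 : p ∣ a * b0 + 1) : b ≡ b0 [MOD p] := by
  have hpa : ¬ p ∣ a := by
    intro h
    have h2 : p ∣ a * b := dvd_mul_of_dvd_left h b
    have h3 := (Nat.dvd_add_right h2).1 hb
    exact hp.one_lt.ne' (Nat.dvd_one.1 h3)
  have hc : Nat.gcd p a = 1 := (Nat.Prime.coprime_iff_not_dvd hp).2 hpa
  refine Nat.ModEq.cancel_left_of_coprime hc (c := a) ?_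
  refine Nat.ModEq.add_right_cancel' 1 ?_
  exact ((Nat.modEq_zero_iff_dvd).2 hb).trans ((Nat.modEq_zero_iff_dvd).2 hb0).symm

open Classical in
/-- the union bound -/
private theorem MfG_union (K X : ℕ) (T : Finset ℕ) (p0 : ℕ) (a : Fin K → ℕ) (f : ℕ → ℝ)
    (hf : ∀ b, 0 ≤ f b) (Q : ℕ → Prop)
    (hQ : ∀ b ∈ Icc 1 X, Q b → ∃ j, p0 ∣ a j * b + 1 ∨ ∃ p ∈ T, p ∣ a j * b + 1) :
    ∑ b ∈ (Icc 1 X).filter Q, f b ≤
      ∑ j : Fin K, (∑ b ∈ (Icc 1 X).filter (fun b => p0 ∣ a j * b + 1), f b +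
        ∑ p ∈ T, ∑ b ∈ (Icc 1 X).filter (fun b => p ∣ a j * b + 1), f b) := by
  have h1 : ∑ j : Fin K, (∑ b ∈ (Icc 1 X).filter (fun b => p0 ∣ a j * b + 1), f b +
        ∑ p ∈ T, ∑ b ∈ (Icc 1 X).filter (fun b => p ∣ a j * b + 1), f b) =
      ∑ b ∈ Icc 1 X, ∑ j : Fin K, ((if p0 ∣ a j * b + 1 then f b else 0) +
        ∑ p ∈ T, if p ∣ a j * b + 1 then f b else 0) := by
    rw [Finset.sum_comm]
    refine Finset.sum_congr rfl fun j _ => ?_
    rw [Finset.sum_add_distrib, Finset.sum_filter]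
    refine congrArg₂ (· + ·) rfl ?_
    rw [Finset.sum_comm]
    exact Finset.sum_congr rfl fun p _ => by rw [Finset.sum_filter]
  rw [h1, Finset.sum_filter]
  refine Finset.sum_le_sum fun b hb => ?_
  have h0 : ∀ (q : Prop) [Decidable q], (0 : ℝ) ≤ if q then f b else 0 := by
    intro q _
    split_ifs
    · exact hf b
    · exact le_refl 0
  have hj0 : ∀ j : Fin K, 0 ≤ (if p0 ∣ a j * b + 1 then f b else 0) +
        ∑ p ∈ T, if p ∣ a j * b + 1 then f b else 0 := fun j =>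
    add_nonneg (h0 _) (Finset.sum_nonneg fun p _ => h0 _)
  by_cases hq : Q b
  · rw [if_pos hq]
    obtain ⟨j, hj⟩ := hQ b hb hq
    refine le_trans ?_ (Finset.single_le_sum (f := fun j => (if p0 ∣ a j * b + 1 then f b else 0) +
        ∑ p ∈ T, if p ∣ a j * b + 1 then f b else 0) (fun j _ => hj0 j) (mem_univ j))
    rcases hj with hj | ⟨p, hp, hj⟩
    · have : (if p0 ∣ a j * b + 1 then f b else 0) = f b := if_pos hj
      have h2 : 0 ≤ ∑ p ∈ T, if p ∣ a j * b + 1 then f b else 0 :=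
        Finset.sum_nonneg fun p _ => h0 _
      show f b ≤ (if p0 ∣ a j * b + 1 then f b else 0) +
        ∑ p ∈ T, if p ∣ a j * b + 1 then f b else 0
      linarith
    · have h2 := Finset.single_le_sum (f := fun p => if p ∣ a j * b + 1 then f b else 0)
        (fun p _ => h0 _) hp
      have h3 : (if p ∣ a j * b + 1 then f b else 0) = f b := if_pos hj
      have h4 := h0 (p0 ∣ a j * b + 1)
      show f b ≤ (if p0 ∣ a j * b + 1 then f b else 0) +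
        ∑ p ∈ T, if p ∣ a j * b + 1 then f b else 0
      have h5 : f b ≤ ∑ p ∈ T, if p ∣ a j * b + 1 then f b else 0 := by
        refine le_trans (le_of_eq h3.symm) h2
      linarith
  · rw [if_neg hq]
    exact Finset.sum_nonneg fun j _ => hj0 j

theorem pMfG (h1 : MfAStmt) (h2 : MfCStmt) (h3 : MfDStmt) : MfGStmt := by
  classical
  intro K r P bd 𝒜 hv η hη
  obtain ⟨XA, hA⟩ := h1 K r P bd 𝒜 hv 1 one_pos
  obtain ⟨C1, XC, hC1, hC⟩ := h2 K r P bd 𝒜 hv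
  obtain ⟨C2, hC2, h3⟩ := h3
  obtain ⟨κ, hκ⟩ : ∃ κ : ℝ, κ = min (1 / 10) (η / (4 * (K * (C1 * C2) + 1))) := ⟨_, rfl⟩
  have hκ0 : 0 < κ := by
    rw [hκ]
    exact lt_min (by norm_num) (by positivity)
  have hκ1 : κ ≤ 1 / 10 := by
    rw [hκ]
    exact min_le_left _ _
  have hκC : K * (C1 * (C2 * κ ^ 2)) ≤ η / 4 := by
    have h : κ ≤ η / (4 * (K * (C1 * C2) + 1)) := by
      rw [hκ]
      exact min_le_right _ _
    rw [le_div_iff₀ (by positivity)] at h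
    have h4 : κ ^ 2 ≤ κ := by nlinarith
    have h5 : K * (C1 * (C2 * κ ^ 2)) ≤ K * (C1 * (C2 * κ)) := by gcongr
    nlinarith
  obtain ⟨η', hη'⟩ : ∃ η' : ℝ, η' = η / (4 * (K * C1 + 1)) := ⟨_, rfl⟩
  have hη'0 : 0 < η' := by
    rw [hη']
    positivity
  have hη'C : K * (C1 * η') ≤ η / 4 := by
    have h : η' ≤ η / (4 * (K * C1 + 1)) := le_of_eq hη'
    rw [le_div_iff₀ (by positivity)] at h
    nlinarith
  obtain ⟨XD, hD⟩ := h3 κ η' hκ0 (by linarith) hη'0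
  obtain ⟨w1, hw1⟩ := exists_nat_ge (4 * K * (Iq P 𝒜 + 1) / η)
  obtain ⟨XE, hE⟩ := Filter.eventually_atTop.1
    ((tendsto_rpow_atTop (by norm_num : (0 : ℝ) < 3 / 10)).eventually_ge_atTop (8 * K / η))
  refine ⟨κ, w1, max (max XA XC) (max XD (max XE (Real.exp 10))), hκ0,
    fun X w V p0 a hX hwp hS => ?_⟩
  have hXA : XA ≤ X := le_trans (le_trans (le_max_left _ _) (le_max_left _ _)) hX
  have hXC : XC ≤ X := le_trans (le_trans (le_max_right _ _) (le_max_left _ _)) hX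
  have hX' := le_trans (le_max_right (max XA XC) _) hX
  have hXD : XD ≤ X := le_trans (le_max_left _ _) hX'
  have hX'' := le_trans (le_max_right XD _) hX'
  have hXE : XE ≤ X := le_trans (le_max_left _ _) hX''
  have hX10 : Real.exp 10 ≤ X := le_trans (le_max_right _ _) hX''
  have hE' : 8 * K / η ≤ (X : ℝ) ^ ((3 : ℝ) / 10) := hE X hXE
  have hXr : (0 : ℝ) < X := lt_of_lt_of_le (Real.exp_pos _) hX10
  have hX1 : 1 ≤ X := by
    have : 0 < X := by exact_mod_cast hXr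
    omega
  have hX1r : (1 : ℝ) ≤ X := by exact_mod_cast hX1
  obtain ⟨L, hL⟩ : ∃ L : ℝ, L = Real.log X := ⟨_, rfl⟩
  have hL10 : 10 ≤ L := by
    rw [hL, Real.le_log_iff_exp_le hXr]
    exact hX10
  have hlR : Real.log (RR X) = L / 5 := by
    rw [hL]
    exact MfG_log X hX1
  have hVp : 1 ≤ V * p0 := Nat.mul_pos hS.hV hS.hp.pos
  have hd0 : 0 < dlV (V * p0) := dlV_pos hVp
  have hd1 : dlV (V * p0) ≤ 1 := dlV_le_one _
  obtain ⟨G, hG⟩ : ∃ G : ℝ, G = GG (V * p0) X := ⟨_, rfl⟩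
  have hG1 : 1 ≤ G := by
    rw [hG]
    unfold GG
    rw [hlR, le_div_iff₀ hd0]
    have : 1 ≤ L / 5 := by linarith
    have := one_le_pow₀ (n := 3) this
    linarith
  obtain ⟨Z, hZ⟩ : ∃ Z : ℝ, Z = G ^ K := ⟨_, rfl⟩
  have hZ1 : 1 ≤ Z := by
    rw [hZ]
    exact one_le_pow₀ hG1
  obtain ⟨I, hI⟩ : ∃ I : ℝ, I = Iq P 𝒜 := ⟨_, rfl⟩
  have hI0 : 0 < I := by
    rw [hI]
    exact hv.pos
  have hp0r : (0 : ℝ) < p0 := by exact_mod_cast hS.hp.pos
  rw [← hG, ← hZ]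
  obtain ⟨E, hEd⟩ : ∃ E : ℕ → ℝ, E = (fun p : ℕ => (Real.log (p : ℝ) / Real.log (RR X)) ^ 2 +
    1 / Real.sqrt (Real.log X)) := ⟨fun p : ℕ => (Real.log (p : ℝ) / Real.log (RR X)) ^ 2 +
    1 / Real.sqrt (Real.log X), rfl⟩
  have hE0 : ∀ p, 0 ≤ E p := by
    intro p
    rw [hEd]
    positivity
  obtain ⟨T, hT⟩ : ∃ T : Finset ℕ, T = ((Icc 1 ⌊(X : ℝ) ^ κ⌋₊).filter Nat.Prime).filter
    (fun p => ¬ p ∣ V * p0) := ⟨_, rfl⟩
  have hXk0 : 0 ≤ (X : ℝ) ^ κ := (Real.rpow_pos_of_pos hXr κ).le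
  have hTp : ∀ p ∈ T, p.Prime ∧ ¬ p ∣ V * p0 ∧ (p : ℝ) ≤ (X : ℝ) ^ κ := by
    intro p hp
    rw [hT, Finset.mem_filter, Finset.mem_filter, Finset.mem_Icc] at hp
    exact ⟨hp.1.2, hp.2, (Nat.le_floor_iff hXk0).1 hp.1.1.2⟩
  -- the class modulo p0
  have hpart1 : ∀ j : Fin K, ∑ b ∈ (Icc 1 X).filter (fun b => p0 ∣ a j * b + 1),
      WW (V * p0) X P 𝒜 a b ^ 2 ≤ X / p0 * (Z * (I + 1)) + (X : ℝ) ^ ((3 : ℝ) / 5) := by
    intro j
    rcases ((Icc 1 X).filter (fun b => p0 ∣ a j * b + 1)).eq_empty_or_nonempty with h | ⟨b0, hb0⟩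
    · rw [h, Finset.sum_empty]
      have : 0 ≤ (X : ℝ) ^ ((3 : ℝ) / 5) := Real.rpow_nonneg hXr.le _
      have : 0 ≤ (X : ℝ) / p0 * (Z * (I + 1)) := by positivity
      linarith
    · have hb0' := (Finset.mem_filter.1 hb0).2
      have h4 := hA X w V p0 p0 b0 a hXA hS (Or.inr rfl)
      rw [← hG, ← hZ, ← hI] at h4
      have h5 := (abs_le.1 h4).2
      have h6 : ∑ b ∈ (Icc 1 X).filter (fun b => p0 ∣ a j * b + 1),
          WW (V * p0) X P 𝒜 a b ^ 2 ≤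
          ∑ b ∈ (Icc 1 X).filter (fun b => b ≡ b0 [MOD p0]), WW (V * p0) X P 𝒜 a b ^ 2 := by
        refine Finset.sum_le_sum_of_subset_of_nonneg ?_ fun b _ _ => sq_nonneg _
        intro b hb
        rw [Finset.mem_filter] at hb ⊢
        exact ⟨hb.1, MfG_class p0 (a j) b b0 hS.hp hb.2 hb0'⟩
      have h7 : (X : ℝ) / p0 * (Z * (I + 1)) = X / p0 * (Z * I) + X / p0 * (Z * 1) := by ring
      rw [h7]
      linarith
  -- the other primes
  have hpart2 : ∀ j : Fin K, ∑ p ∈ T, ∑ b ∈ (Icc 1 X).filter (fun b => p ∣ a j * b + 1),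
      WW (V * p0) X P 𝒜 a b ^ 2 ≤
      X * (Z * (C1 * (C2 * κ ^ 2 + η'))) + (X : ℝ) ^ ((7 : ℝ) / 10) := by
    intro j
    have h4 : ∀ p ∈ T, ∑ b ∈ (Icc 1 X).filter (fun b => p ∣ a j * b + 1),
        WW (V * p0) X P 𝒜 a b ^ 2 ≤
        X * (Z * C1) * (1 / (p : ℝ) * E p) + (X : ℝ) ^ ((3 : ℝ) / 5) := by
      intro p hp
      obtain ⟨h5, h6, h7⟩ := hTp p hp
      have h8 : (p : ℝ) ≤ RR X := by
        refine h7.trans ?_
        unfold RR
        exact Real.rpow_le_rpow_of_exponent_le hX1r (by linarith)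
      refine (hC X w V p0 p a j hXC hS h5 h6 h8).trans (le_of_eq ?_)
      rw [← hG, ← hZ, hEd]
      ring
    refine (Finset.sum_le_sum h4).trans ?_
    rw [Finset.sum_add_distrib, ← Finset.mul_sum, Finset.sum_const, nsmul_eq_mul]
    have h5 : ∑ p ∈ T, 1 / (p : ℝ) * E p ≤ C2 * κ ^ 2 + η' := by
      refine le_trans ?_ (hD X hXD)
      simp only [hEd]
      refine Finset.sum_le_sum_of_subset_of_nonneg ?_ fun p _ _ => by
        have := hE0 p
        positivity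
      rw [hT]
      exact Finset.filter_subset _ _
    have h6 : (T.card : ℝ) ≤ (X : ℝ) ^ ((1 : ℝ) / 10) := by
      have h7 : T.card ≤ ⌊(X : ℝ) ^ κ⌋₊ := by
        rw [hT]
        refine (Finset.card_filter_le _ _).trans ((Finset.card_filter_le _ _).trans ?_)
        rw [Nat.card_Icc]
        omega
      calc (T.card : ℝ) ≤ (⌊(X : ℝ) ^ κ⌋₊ : ℝ) := by exact_mod_cast h7
        _ ≤ (X : ℝ) ^ κ := Nat.floor_le hXk0
        _ ≤ (X : ℝ) ^ ((1 : ℝ) / 10) := Real.rpow_le_rpow_of_exponent_le hX1r hκ1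
    have h8 : (T.card : ℝ) * (X : ℝ) ^ ((3 : ℝ) / 5) ≤ (X : ℝ) ^ ((7 : ℝ) / 10) := by
      calc (T.card : ℝ) * (X : ℝ) ^ ((3 : ℝ) / 5)
          ≤ (X : ℝ) ^ ((1 : ℝ) / 10) * (X : ℝ) ^ ((3 : ℝ) / 5) :=
            mul_le_mul_of_nonneg_right h6 (Real.rpow_nonneg hXr.le _)
        _ = (X : ℝ) ^ ((7 : ℝ) / 10) := by
            rw [← Real.rpow_add hXr]
            norm_num
    refine add_le_add ?_ h8
    calc X * (Z * C1) * ∑ p ∈ T, 1 / (p : ℝ) * E p ≤ X * (Z * C1) * (C2 * κ ^ 2 + η') :=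
          mul_le_mul_of_nonneg_left h5 (by positivity)
      _ = X * (Z * (C1 * (C2 * κ ^ 2 + η'))) := by ring
  -- the union bound
  have hun := MfG_union K X T p0 a (fun b => WW (V * p0) X P 𝒜 a b ^ 2) (fun b => sq_nonneg _)
    (fun b => ¬ ∀ j, Rgh ((X : ℝ) ^ κ) (a j * b + 1)) (by
      intro b hb hQ
      have hQ' : ∃ j, ¬ Rgh ((X : ℝ) ^ κ) (a j * b + 1) := by
        by_contra h
        exact hQ fun j => by
          by_contra h'
          exact h ⟨j, h'⟩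
      obtain ⟨j, hj⟩ := hQ'
      have hj' : ∃ p : ℕ, p.Prime ∧ p ∣ a j * b + 1 ∧ (p : ℝ) ≤ (X : ℝ) ^ κ := by
        by_contra h
        refine hj fun p hp hpd => ?_
        by_contra h'
        exact h ⟨p, hp, hpd, not_lt.1 h'⟩
      obtain ⟨p, hp, hpd, hpX⟩ := hj'
      refine ⟨j, ?_⟩
      by_cases hpp : p = p0
      · left
        rw [← hpp]
        exact hpd
      · right
        refine ⟨p, ?_, hpd⟩
        rw [hT, Finset.mem_filter, Finset.mem_filter, Finset.mem_Icc]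
        refine ⟨⟨⟨hp.one_lt.le, Nat.le_floor hpX⟩, hp⟩, ?_⟩
        intro h
        rcases (Nat.Prime.dvd_mul hp).1 h with h | h
        · have h5 : p ∣ a j * b := dvd_mul_of_dvd_left (h.trans (hS.hVa j)) b
          have h6 := (Nat.dvd_add_right h5).1 hpd
          exact hp.one_lt.ne' (Nat.dvd_one.1 h6)
        · exact hpp ((Nat.prime_dvd_prime_iff_eq hp hS.hp).1 h))
  refine le_trans (le_of_eq ?_) (hun.trans ?_)
  · refine Finset.sum_congr ?_ fun _ _ => rfl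
    ext b
    simp only [Finset.mem_filter]
  calc ∑ j : Fin K, (∑ b ∈ (Icc 1 X).filter (fun b => p0 ∣ a j * b + 1),
          WW (V * p0) X P 𝒜 a b ^ 2 +
        ∑ p ∈ T, ∑ b ∈ (Icc 1 X).filter (fun b => p ∣ a j * b + 1), WW (V * p0) X P 𝒜 a b ^ 2)
      ≤ ∑ _j : Fin K, ((X / p0 * (Z * (I + 1)) + (X : ℝ) ^ ((3 : ℝ) / 5)) +
        (X * (Z * (C1 * (C2 * κ ^ 2 + η'))) + (X : ℝ) ^ ((7 : ℝ) / 10))) :=
        Finset.sum_le_sum fun j _ => add_le_add (hpart1 j) (hpart2 j)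
    _ = K * ((X / p0 * (Z * (I + 1)) + (X : ℝ) ^ ((3 : ℝ) / 5)) +
        (X * (Z * (C1 * (C2 * κ ^ 2 + η'))) + (X : ℝ) ^ ((7 : ℝ) / 10))) := by
        rw [Finset.sum_const, Finset.card_univ, Fintype.card_fin, nsmul_eq_mul]
    _ ≤ X * (Z * η) := by
        have g1 : K * ((X : ℝ) / p0 * (Z * (I + 1))) ≤ X * (Z * (η / 4)) := by
          have h4 : K * (I + 1) / p0 ≤ η / 4 := by
            rw [div_le_div_iff₀ hp0r (by norm_num)]
            rw [div_le_iff₀ hη] at hw1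
            have h5 : (w1 : ℝ) ≤ p0 := by exact_mod_cast hwp.le
            rw [← hI] at hw1
            nlinarith
          calc K * ((X : ℝ) / p0 * (Z * (I + 1))) = X * (Z * (K * (I + 1) / p0)) := by ring
            _ ≤ X * (Z * (η / 4)) := by gcongr
        have g2 : K * (X * (Z * (C1 * (C2 * κ ^ 2 + η')))) ≤ X * (Z * (η / 2)) := by
          calc K * (X * (Z * (C1 * (C2 * κ ^ 2 + η')))) =
                X * (Z * (K * (C1 * (C2 * κ ^ 2)) + K * (C1 * η'))) := by ring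
            _ ≤ X * (Z * (η / 4 + η / 4)) := by gcongr
            _ = X * (Z * (η / 2)) := by ring
        have g3 : K * ((X : ℝ) ^ ((3 : ℝ) / 5) + (X : ℝ) ^ ((7 : ℝ) / 10)) ≤ X * (Z * (η / 4)) := by
          have h4 : (X : ℝ) ^ ((3 : ℝ) / 5) ≤ (X : ℝ) ^ ((7 : ℝ) / 10) :=
            Real.rpow_le_rpow_of_exponent_le hX1r (by norm_num)
          have h5 : (X : ℝ) = (X : ℝ) ^ ((7 : ℝ) / 10) * (X : ℝ) ^ ((3 : ℝ) / 10) := by
            rw [← Real.rpow_add hXr]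
            norm_num
          have h6 : 0 < (X : ℝ) ^ ((7 : ℝ) / 10) := Real.rpow_pos_of_pos hXr _
          have h7 : 8 * K ≤ (X : ℝ) ^ ((3 : ℝ) / 10) * η := (div_le_iff₀ hη).1 hE'
          calc K * ((X : ℝ) ^ ((3 : ℝ) / 5) + (X : ℝ) ^ ((7 : ℝ) / 10))
              ≤ K * ((X : ℝ) ^ ((7 : ℝ) / 10) + (X : ℝ) ^ ((7 : ℝ) / 10)) := by gcongr
            _ = (X : ℝ) ^ ((7 : ℝ) / 10) * (8 * K) / 4 := by ring
            _ ≤ (X : ℝ) ^ ((7 : ℝ) / 10) * ((X : ℝ) ^ ((3 : ℝ) / 10) * η) / 4 := by gcongr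
            _ = X * (1 * (η / 4)) := by
                nth_rewrite 3 [h5]
                ring
            _ ≤ X * (Z * (η / 4)) := by gcongr
        calc K * ((X / p0 * (Z * (I + 1)) + (X : ℝ) ^ ((3 : ℝ) / 5)) +
              (X * (Z * (C1 * (C2 * κ ^ 2 + η'))) + (X : ℝ) ^ ((7 : ℝ) / 10)))
            = K * ((X : ℝ) / p0 * (Z * (I + 1))) + K * (X * (Z * (C1 * (C2 * κ ^ 2 + η')))) +
              K * ((X : ℝ) ^ ((3 : ℝ) / 5) + (X : ℝ) ^ ((7 : ℝ) / 10)) := by ring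
          _ ≤ X * (Z * (η / 4)) + X * (Z * (η / 2)) + X * (Z * (η / 4)) :=
              add_le_add (add_le_add g1 g2) g3
          _ = X * (Z * η) := by ring

end Pool.Agent.Lib.MP_9f2731_nt.CG.Mf
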