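import Pool.Agent.Lib.MP_9f2731_nt.CG.Mf.Spec

/-!
MP_9f2731_nt, CG/Mf, module MfI (helper32): from MtkStmt to MtStmt.
-/

namespace Pool.Agent.Lib.MP_9f2731_nt.CG.Mf

open Finset
open Pool.Agent.Lib.MP_9f2731_nt.GP
open Pool.Agent.Lib.MP_9f2731_nt.GP.Sv
open Pool.Agent.Lib.MP_9f2731_nt.QL
open Pool.Agent.Lib.MP_9f2731_nt.QL.Sw
open Pool.Agent.Lib.MP_9f2731_nt.CG
open Pool.Agent.Lib.MP_9f2731_nt.CG.Ma

private theorem mfi_large (gm : ℕ) : ∃ L0 : ℝ, ∀ L : ℝ, L0 ≤ L → 2 ≤ L ∧ (gm : ℝ) ≤ L ^ 4 ∧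
    (1 + L ^ 6) ^ 12 ≤ Real.exp (L / 2) ∧ L ^ 6 + Real.log gm ≤ Real.exp L := by
  have e1 : ∀ᶠ L : ℝ in Filter.atTop, 2 ≤ L := Filter.eventually_ge_atTop 2
  have e2 : ∀ᶠ L : ℝ in Filter.atTop, (gm : ℝ) ≤ L ^ 4 :=
    (Filter.tendsto_pow_atTop (by norm_num : (4 : ℕ) ≠ 0)).eventually_ge_atTop _
  have e3 : ∀ᶠ L : ℝ in Filter.atTop, (1 + L ^ 6) ^ 12 ≤ Real.exp (L / 2) := by
    have h := (Real.isLittleO_pow_exp_atTop (n := 72)).bound
      (show (0 : ℝ) < 1 / (4096 * 2 ^ 72) by positivity)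
    have ht : Filter.Tendsto (fun L : ℝ => L / 2) Filter.atTop Filter.atTop :=
      Filter.tendsto_id.atTop_div_const (by norm_num)
    filter_upwards [ht.eventually h, Filter.eventually_ge_atTop (1 : ℝ)] with L hL h1
    have h2 : (1 : ℝ) ≤ L ^ 6 := one_le_pow₀ h1
    have h3 : (1 + L ^ 6) ^ 12 ≤ (2 * L ^ 6) ^ 12 :=
      pow_le_pow_left₀ (by positivity) (by linarith) 12
    have h4 : (2 * L ^ 6) ^ 12 = 4096 * 2 ^ 72 * (L / 2) ^ 72 := by ring
    have h5 : (L / 2) ^ 72 ≤ 1 / (4096 * 2 ^ 72) * Real.exp (L / 2) := by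
      have h6 := hL
      rw [Real.norm_of_nonneg (by positivity), Real.norm_of_nonneg (Real.exp_pos _).le] at h6
      exact h6
    calc (1 + L ^ 6) ^ 12 ≤ (2 * L ^ 6) ^ 12 := h3
      _ = 4096 * 2 ^ 72 * (L / 2) ^ 72 := h4
      _ ≤ 4096 * 2 ^ 72 * (1 / (4096 * 2 ^ 72) * Real.exp (L / 2)) :=
        mul_le_mul_of_nonneg_left h5 (by positivity)
      _ = Real.exp (L / 2) := by
        rw [← mul_assoc, mul_one_div_cancel (by positivity), one_mul]
  have e4 : ∀ᶠ L : ℝ in Filter.atTop, L ^ 6 + Real.log gm ≤ Real.exp L := by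
    have h := (Real.isLittleO_pow_exp_atTop (n := 6)).bound (show (0 : ℝ) < 1 / 2 by norm_num)
    filter_upwards [h, Filter.eventually_ge_atTop (0 : ℝ),
      Real.tendsto_exp_atTop.eventually_ge_atTop (2 * Real.log gm)] with L hL h0 h1
    rw [Real.norm_of_nonneg (by positivity), Real.norm_of_nonneg (Real.exp_pos _).le] at hL
    linarith
  obtain ⟨L0, hL0⟩ := Filter.eventually_atTop.1 (e1.and (e2.and (e3.and e4)))
  exact ⟨L0, fun L hL => hL0 L hL⟩

private theorem mfi_enum (𝒢 ℋ : Finset ℕ) (K : ℕ) (hG : 𝒢.card = K) (hGH : 𝒢 ⊆ ℋ) :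
    ∃ g : Fin (K + (ℋ \ 𝒢).card) → ℕ, Function.Injective g ∧ (∀ j, g j ∈ ℋ) ∧
      (∀ x ∈ ℋ, ∃ j, g j = x) ∧ ∀ j : Fin (K + (ℋ \ 𝒢).card), (j : ℕ) < K → g j ∈ 𝒢 := by
  subst hG
  let g1 : Fin 𝒢.card → ℕ := fun i => (𝒢.equivFin.symm i : ℕ)
  let g2 : Fin (ℋ \ 𝒢).card → ℕ := fun i => ((ℋ \ 𝒢).equivFin.symm i : ℕ)
  have m1 : ∀ i, g1 i ∈ 𝒢 := fun i => (𝒢.equivFin.symm i).2
  have m2 : ∀ i, g2 i ∈ ℋ \ 𝒢 := fun i => ((ℋ \ 𝒢).equivFin.symm i).2
  have i1 : Function.Injective g1 := fun i j h => 𝒢.equivFin.symm.injective (Subtype.ext h)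
  have i2 : Function.Injective g2 := fun i j h => (ℋ \ 𝒢).equivFin.symm.injective (Subtype.ext h)
  refine ⟨Fin.append g1 g2, ?_, ?_, ?_, ?_⟩
  · intro a b
    refine Fin.addCases (fun i => ?_) (fun i => ?_) a <;>
      refine Fin.addCases (fun j => ?_) (fun j => ?_) b
    · intro h
      rw [Fin.append_left, Fin.append_left] at h
      rw [i1 h]
    · intro h
      rw [Fin.append_left, Fin.append_right] at h
      exact absurd (h ▸ m1 i) (Finset.mem_sdiff.1 (m2 j)).2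
    · intro h
      rw [Fin.append_right, Fin.append_left] at h
      exact absurd (h.symm ▸ m1 j) (Finset.mem_sdiff.1 (m2 i)).2
    · intro h
      rw [Fin.append_right, Fin.append_right] at h
      rw [i2 h]
  · intro a
    refine Fin.addCases (fun i => ?_) (fun i => ?_) a
    · rw [Fin.append_left]
      exact hGH (m1 i)
    · rw [Fin.append_right]
      exact (Finset.mem_sdiff.1 (m2 i)).1
  · intro x hx
    by_cases h : x ∈ 𝒢
    · refine ⟨Fin.castAdd _ (𝒢.equivFin ⟨x, h⟩), ?_⟩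
      rw [Fin.append_left]
      show ((𝒢.equivFin.symm (𝒢.equivFin ⟨x, h⟩) : 𝒢) : ℕ) = x
      rw [Equiv.symm_apply_apply]
    · refine ⟨Fin.natAdd _ ((ℋ \ 𝒢).equivFin ⟨x, Finset.mem_sdiff.2 ⟨hx, h⟩⟩), ?_⟩
      rw [Fin.append_right]
      show (((ℋ \ 𝒢).equivFin.symm ((ℋ \ 𝒢).equivFin ⟨x, Finset.mem_sdiff.2 ⟨hx, h⟩⟩) :
        (ℋ \ 𝒢 : Finset ℕ)) : ℕ) = x
      rw [Equiv.symm_apply_apply]
  · intro a
    refine Fin.addCases (fun i => ?_) (fun i => ?_) a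
    · intro _
      rw [Fin.append_left]
      exact m1 i
    · intro h
      exact absurd h (by simp)

private theorem mfi_dist (V g g' s : ℕ) :
    Nat.dist (V * (g * s)) (V * (g' * s)) = V * (Nat.dist g g' * s) := by
  rw [Nat.dist_mul_left, Nat.dist_mul_right]

theorem pMfI (h : MtkStmt) : MfIStmt := by
  classical
  intro m
  obtain ⟨K, hK⟩ := h m
  refine ⟨K, fun 𝒢 ℋ hG hGH h1 => ?_⟩
  obtain ⟨κ, c, w1, X0, hκ, hc, hX⟩ := hK (K + (ℋ \ 𝒢).card) (Nat.le_add_right _ _)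
  obtain ⟨g, hgi, hgH, hgs, hgG⟩ := mfi_enum 𝒢 ℋ K hG hGH
  have hcard : ℋ.card = K + (ℋ \ 𝒢).card := by
    rw [← hG, Finset.card_sdiff_of_subset hGH]
    have := Finset.card_le_card hGH
    omega
  set gm : ℕ := ℋ.sup id + 1 with hgm
  have hle : ∀ x ∈ ℋ, x ≤ gm := fun x hx => (Finset.le_sup (f := id) hx).trans (Nat.le_succ _)
  obtain ⟨L0, hL0⟩ := mfi_large gm
  refine ⟨κ, c, w1, max X0 (Real.exp (Real.exp (max L0 1))), hκ, hc, ?_⟩
  intro X V p0 s hX0 hp0 hw1 hpV hV hsm hVs hlog hBv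
  rw [max_le_iff] at hX0
  have hXpos : (0 : ℝ) < X := (Real.exp_pos _).trans_le hX0.2
  have hl1 : Real.exp (max L0 1) ≤ Real.log X := by
    rw [Real.le_log_iff_exp_le hXpos]
    exact hX0.2
  have hlp : 0 < Real.log X := (Real.exp_pos _).trans_le hl1
  have hl2 : max L0 1 ≤ Real.log (Real.log X) := by
    rw [Real.le_log_iff_exp_le hlp]
    exact hl1
  obtain ⟨b1, b2, b3, b4⟩ := hL0 (Real.log (Real.log X)) ((le_max_left _ _).trans hl2)
  set Λ : ℝ := Real.log (Real.log X) with hΛ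
  have hexp : Real.exp Λ = Real.log X := Real.exp_log hlp
  have hs1 : 1 ≤ s := hVs.1
  have hlV : 0 ≤ Real.log V := Real.log_nonneg (by exact_mod_cast hV)
  have hls : 0 ≤ Real.log s := Real.log_nonneg (by exact_mod_cast hs1)
  have hw0 : (⌊Λ ^ 4⌋₊ : ℝ) ≤ Λ ^ 4 := Nat.floor_le (by positivity)
  have hgw : gm ≤ ⌊Λ ^ 4⌋₊ := Nat.le_floor b2
  have hsp : ∀ p : ℕ, p.Prime → p ≤ ⌊Λ ^ 4⌋₊ → p ∣ V * p0 := by
    intro p hp hpw
    by_cases hpp : p = p0
    · rw [hpp]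
      exact Dvd.intro_left V rfl
    · exact Dvd.dvd.mul_right (hsm p hp ((Nat.cast_le.2 hpw).trans hw0) hpp) p0
  have hStp : Stp X ⌊Λ ^ 4⌋₊ V p0 (fun j => V * (g j * s)) := by
    refine ⟨hp0, hpV, hV, ?_, ?_, hsp, ?_, ?_, ?_, ?_, ?_⟩
    · have h2 : Λ ^ 4 < ⌊Λ ^ 4⌋₊ + 1 := Nat.lt_floor_add_one _
      have h3 : (4 : ℝ) ≤ Λ ^ 2 := by nlinarith
      have h4 : Λ ^ 4 = Λ ^ 2 * Λ ^ 2 := by ring
      nlinarith
    · rw [← hexp, ← Real.exp_half]
      refine le_trans (pow_le_pow_left₀ (by linarith) ?_ 12) b3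
      linarith
    · intro j p hp hpn hpa
      rcases hp.dvd_mul.1 hpa with h2 | h2
      · exact hpn (h2.mul_right p0)
      · rcases hp.dvd_mul.1 h2 with h3 | h3
        · have h4 : p ≤ g j := Nat.le_of_dvd (h1 _ (hgH j)) h3
          exact hpn (hsp p hp ((h4.trans (hle _ (hgH j))).trans hgw))
        · exact hpn ((hVs.2 p hp h3).mul_right p0)
    · intro j k hjk p hp hpn hpa
      rw [mfi_dist] at hpa
      rcases hp.dvd_mul.1 hpa with h2 | h2
      · exact hpn (h2.mul_right p0)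
      · rcases hp.dvd_mul.1 h2 with h3 | h3
        · have h5 : Nat.dist (g j) (g k) ≤ gm := by
            have ha := hle _ (hgH j)
            have hb := hle _ (hgH k)
            unfold Nat.dist
            omega
          have h6 : 0 < Nat.dist (g j) (g k) := by
            have hne : g j ≠ g k := fun he => hjk (hgi he)
            unfold Nat.dist
            omega
          have h4 : p ≤ Nat.dist (g j) (g k) := Nat.le_of_dvd h6 h3
          exact hpn (hsp p hp ((h4.trans h5).trans hgw))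
        · exact hpn ((hVs.2 p hp h3).mul_right p0)
    · intro j
      exact Dvd.intro _ rfl
    · intro j
      exact Nat.mul_pos hV (Nat.mul_pos (h1 _ (hgH j)) hs1)
    · intro j
      have hg1 : 1 ≤ g j := h1 _ (hgH j)
      have hVr : (0 : ℝ) < V := by exact_mod_cast hV
      have hgr : (0 : ℝ) < g j := by exact_mod_cast hg1
      have hsr : (0 : ℝ) < s := by exact_mod_cast hs1
      have h2 : Real.log ((V : ℝ) * (g j * s)) ≤ Real.log X := by
        rw [Real.log_mul hVr.ne' (mul_pos hgr hsr).ne', Real.log_mul hgr.ne' hsr.ne', ← hexp]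
        have h3 : Real.log (g j) ≤ Real.log gm :=
          Real.log_le_log hgr (by exact_mod_cast hle _ (hgH j))
        linarith
      have h4 : (V : ℝ) * (g j * s) ≤ X :=
        (Real.log_le_log_iff (by positivity) hXpos).1 h2
      exact_mod_cast h4
  have hfin := hX X ⌊Λ ^ 4⌋₊ V p0 (fun j => V * (g j * s)) hX0.1 hw1 hStp
    (fun j hj => hBv (g j) (hgG j hj))
  rw [hcard]
  refine hfin.trans ?_
  have hcomm : ∀ x b : ℕ, V * b * (x * s) + 1 = V * (x * s) * b + 1 := fun x b => by ring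
  refine Nat.cast_le.2 (Finset.card_le_card fun b hb => ?_)
  rw [Finset.mem_filter] at hb ⊢
  refine ⟨hb.1, fun x hx => ?_, hb.2.2.trans ?_⟩
  · obtain ⟨j, rfl⟩ := hgs x hx
    rw [hcomm]
    exact hb.2.1 j
  · refine Finset.card_le_card_of_injOn g (fun j hj => ?_) (fun a _ b _ hab => hgi hab)
    rw [Finset.mem_coe, Finset.mem_filter] at hj ⊢
    refine ⟨hgG j hj.2.1, ?_⟩
    rw [hcomm]
    exact hj.2.2

end Pool.Agent.Lib.MP_9f2731_nt.CG.Mf
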