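import Pool.Agent.Lib.MP_9f2731_nt.CG.Mf.Spec

set_option autoImplicit false

namespace Pool.Agent.Lib.MP_9f2731_nt.CG.Mf

open Finset
open Pool.Agent.Lib.MP_9f2731_nt.GP Pool.Agent.Lib.MP_9f2731_nt.GP.Sv Pool.Agent.Lib.MP_9f2731_nt.QL
  Pool.Agent.Lib.MP_9f2731_nt.QL.Sw Pool.Agent.Lib.MP_9f2731_nt.CG Pool.Agent.Lib.MP_9f2731_nt.CG.Ma

private theorem MfT_log (X : ℕ) (hX : 1 ≤ X) : Real.log (RR X) = Real.log X / 5 := by
  unfold RR
  rw [Real.log_rpow (by exact_mod_cast hX)]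
  ring

private theorem MfT_dl (V p : ℕ) (hV : 1 ≤ V) (hp : p.Prime) (hpV : ¬ p ∣ V) :
    dlV V / 2 ≤ dlV (V * p) := by
  unfold dlV
  have hc : V.Coprime p := ((Nat.Prime.coprime_iff_not_dvd hp).2 hpV).symm
  rw [Nat.totient_mul hc, Nat.totient_prime hp]
  have h2 : (2 : ℝ) ≤ p := by exact_mod_cast hp.two_le
  have hV' : (0 : ℝ) < V := by exact_mod_cast hV
  rw [Nat.cast_mul, Nat.cast_mul, Nat.cast_sub hp.one_lt.le, Nat.cast_one, div_div,
    div_le_div_iff₀ (by positivity) (by positivity)]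
  have h0 : (0 : ℝ) ≤ V.totient := Nat.cast_nonneg _
  have := mul_nonneg (mul_nonneg h0 hV'.le) (sub_nonneg.2 h2)
  nlinarith

private theorem MfT_num (L s v : ℝ) (hL : 10 ≤ L) (hs : 0 < s) (hs2 : s * s = L) (hv : 1 ≤ v)
    (hv12 : v ^ 12 ≤ s) :
    (4 * v ^ 2) ^ 6 * (1 + L / 5) ^ 2 ≤ 81920 * ((L / 5) ^ 3 / s) := by
  have h1 : (4 * v ^ 2) ^ 6 = 4096 * v ^ 12 := by ring
  have h2 : (1 + L / 5) ^ 2 ≤ 4 * (L / 5) ^ 2 := by nlinarith
  rw [h1, mul_div_assoc', le_div_iff₀ hs]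
  calc 4096 * v ^ 12 * (1 + L / 5) ^ 2 * s ≤ 4096 * s * (4 * (L / 5) ^ 2) * s := by gcongr
    _ = 16384 * (L / 5) ^ 2 * (s * s) := by ring
    _ = 81920 * (L / 5) ^ 3 := by
        rw [hs2]
        ring

theorem pMfT (h1 : TmAStmt) (h2 : TmBStmt) (h3 : PfAStmt) : MfTStmt := by
  intro r P hP
  obtain ⟨C1, hC1, h3⟩ := h3
  obtain ⟨M, hM⟩ : ∃ M : ℝ, M = ∑ i, (P i).M := ⟨_, rfl⟩
  have hM0 : ∀ i, 0 ≤ (P i).M := fun i => by
    unfold Pf.M
    exact Finset.sum_nonneg fun s _ => abs_nonneg _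
  have hMi : ∀ i, (P i).M ≤ M := fun i => by
    rw [hM]
    exact Finset.single_le_sum (f := fun j => (P j).M) (fun j _ => hM0 j) (mem_univ i)
  obtain ⟨D, hD⟩ : ∃ D : ℝ, D = C1 * M ^ 2 := ⟨_, rfl⟩
  have hD0 : 0 ≤ D := by
    rw [hD]
    positivity
  have hMM : ∀ i k, C1 * ((P i).M * (P k).M) ≤ D := fun i k => by
    rw [hD]
    refine mul_le_mul_of_nonneg_left ?_ hC1.le
    rw [pow_two]
    exact mul_le_mul (hMi i) (hMi k) (hM0 k) ((hM0 i).trans (hMi i))
  refine ⟨D * 5242882 + 1, Real.exp 10, by positivity, ?_⟩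
  intro X w V p0 K a hX hS
  have hXr : (0 : ℝ) < X := lt_of_lt_of_le (Real.exp_pos _) hX
  have hX1 : 1 ≤ X := by
    have : 0 < X := by exact_mod_cast hXr
    omega
  obtain ⟨L, hL⟩ : ∃ L : ℝ, L = Real.log X := ⟨_, rfl⟩
  have hL10 : 10 ≤ L := by
    rw [hL, Real.le_log_iff_exp_le hXr]
    exact hX
  have hlR : Real.log (RR X) = L / 5 := by
    rw [hL]
    exact MfT_log X hX1
  have hR0 : 0 < RR X := by
    unfold RR
    exact Real.rpow_pos_of_pos hXr _
  have hR2 : 2 ≤ RR X := by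
    rw [← Real.exp_log hR0, hlR]
    have := Real.add_one_le_exp (L / 5)
    linarith
  obtain ⟨s, hs⟩ : ∃ s : ℝ, s = Real.sqrt L := ⟨_, rfl⟩
  have hs2 : s * s = L := by
    rw [hs]
    exact Real.mul_self_sqrt (by linarith)
  have hs1 : 1 ≤ s := by
    rw [hs]
    exact Real.one_le_sqrt.2 (by linarith)
  have hs0 : 0 < s := by linarith
  obtain ⟨v, hv⟩ : ∃ v : ℝ, v = 1 + Real.log V := ⟨_, rfl⟩
  have hV1 : (1 : ℝ) ≤ V := by exact_mod_cast hS.hV
  have hv1 : 1 ≤ v := by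
    rw [hv]
    have := Real.log_nonneg hV1
    linarith
  have hv12 : v ^ 12 ≤ s := by
    rw [hv, hs, hL]
    exact hS.hlog
  have hVp : 1 ≤ V * p0 := Nat.mul_pos hS.hV hS.hp.pos
  have hd0 : 0 < dlV (V * p0) := dlV_pos hVp
  have hd1 : dlV (V * p0) ≤ 1 := dlV_le_one _
  obtain ⟨G, hG⟩ : ∃ G : ℝ, G = GG (V * p0) X := ⟨_, rfl⟩
  have hG' : G = (L / 5) ^ 3 / dlV (V * p0) := by
    rw [hG]
    unfold GG
    rw [hlR]
  have hl0 : 0 < L / 5 := by linarith
  have hlG : (L / 5) ^ 3 ≤ G := by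
    rw [hG', le_div_iff₀ hd0]
    have : 0 ≤ (L / 5) ^ 3 := by positivity
    nlinarith
  have hG0 : 0 ≤ G := le_trans (by positivity) hlG
  have hGs : 0 ≤ G / s := by positivity
  have hGs1 : G / s ≤ G := div_le_self hG0 hs1
  have hE : (4 * v ^ 2) ^ 6 * (1 + L / 5) ^ 2 ≤ 81920 * (G / s) :=
    le_trans (MfT_num L s v hL10 hs0 hs2 hv1 hv12) (by gcongr)
  have hE2 : (2 * (4 * v ^ 2)) ^ 6 * (1 + L / 5) ^ 2 ≤ 5242880 * (G / s) := by
    have : (2 * (4 * v ^ 2)) ^ 6 * (1 + L / 5) ^ 2 = 64 * ((4 * v ^ 2) ^ 6 * (1 + L / 5) ^ 2) := by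
      ring
    rw [this]
    linarith
  have hT : Tame (V * p0) (4 * v ^ 2) := by
    have := h2 V p0 _ (h1 V hS.hV) hS.hp hS.hpV
    rw [← hv] at this
    have h : 2 * (2 * v ^ 2) = 4 * v ^ 2 := by ring
    rwa [h] at this
  rw [← hG, ← hL, ← hs, hlR]
  refine ⟨fun i k => ?_, fun p hp hpV hpR i k b c => ?_⟩
  · obtain ⟨a1, a2, -⟩ := h3 (V * p0) (4 * v ^ 2) (RR X) (P i) (P k) hT hR2 (hP i) (hP k)
    rw [hlR] at a1 a2
    rw [← hG'] at a1 a2
    refine ⟨?_, fun b c => ?_⟩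
    · refine a1.trans ?_
      calc C1 * ((P i).M * (P k).M) * ((4 * v ^ 2) ^ 6 * (1 + L / 5) ^ 2)
          ≤ D * (81920 * (G / s)) := mul_le_mul (hMM i k) hE (by positivity) hD0
        _ = D * 81920 * (G / s) := by ring
        _ ≤ (D * 5242882 + 1) * (G / s) := by
            refine mul_le_mul_of_nonneg_right ?_ hGs
            linarith
    · refine (a2 b c).trans ?_
      calc C1 * ((P i).M * (P k).M) * (G + (4 * v ^ 2) ^ 6 * (1 + L / 5) ^ 2)
          ≤ D * (81921 * G) := by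
            refine mul_le_mul (hMM i k) ?_ (by positivity) hD0
            linarith
        _ = D * 81921 * G := by ring
        _ ≤ (D * 5242882 + 1) * G := by
            refine mul_le_mul_of_nonneg_right ?_ hG0
            linarith
  · have hTp : Tame (V * p0 * p) (2 * (4 * v ^ 2)) := h2 (V * p0) p _ hT hp hpV
    obtain ⟨-, a2, a3⟩ := h3 (V * p0 * p) (2 * (4 * v ^ 2)) (RR X) (P i) (P k) hTp hR2 (hP i) (hP k)
    have hdp := MfT_dl (V * p0) p hVp hp hpV
    have hdp0 : 0 < dlV (V * p0 * p) := lt_of_lt_of_le (by linarith) hdp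
    have hinv : ∀ x : ℝ, 0 ≤ x → x / dlV (V * p0 * p) ≤ 2 * (x / dlV (V * p0)) := by
      intro x hx
      calc x / dlV (V * p0 * p) ≤ x / (dlV (V * p0) / 2) := by gcongr
        _ = 2 * (x / dlV (V * p0)) := by
            field_simp
    rw [hlR] at a2 a3
    refine ⟨?_, ?_⟩
    · refine (a2 b c).trans ?_
      have h4 := hinv ((L / 5) ^ 3) (by positivity)
      rw [← hG'] at h4
      calc C1 * ((P i).M * (P k).M) * ((L / 5) ^ 3 / dlV (V * p0 * p) +
            (2 * (4 * v ^ 2)) ^ 6 * (1 + L / 5) ^ 2)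
          ≤ D * (5242882 * G) := by
            refine mul_le_mul (hMM i k) ?_ (by positivity) hD0
            linarith
        _ = D * 5242882 * G := by ring
        _ ≤ (D * 5242882 + 1) * G := by
            refine mul_le_mul_of_nonneg_right ?_ hG0
            linarith
    · refine (a3 p b c hp.one_lt.le hpR).trans ?_
      have h4 := hinv (L / 5 * Real.log p ^ 2) (by positivity)
      have h5 : 2 * (L / 5 * Real.log p ^ 2 / dlV (V * p0)) =
          2 * (G * (Real.log p / (L / 5)) ^ 2) := by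
        rw [hG']
        field_simp
      rw [h5] at h4
      have h6 : 0 ≤ G * (Real.log p / (L / 5)) ^ 2 := by positivity
      have h7 : G * (1 / s) = G / s := by ring
      calc C1 * ((P i).M * (P k).M) * (L / 5 * Real.log p ^ 2 / dlV (V * p0 * p) +
            (2 * (4 * v ^ 2)) ^ 6 * (1 + L / 5) ^ 2)
          ≤ D * (5242880 * (G * ((Real.log p / (L / 5)) ^ 2 + 1 / s))) := by
            refine mul_le_mul (hMM i k) ?_ (by positivity) hD0
            rw [mul_add, h7]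
            linarith
        _ = D * 5242880 * (G * ((Real.log p / (L / 5)) ^ 2 + 1 / s)) := by ring
        _ ≤ (D * 5242882 + 1) * (G * ((Real.log p / (L / 5)) ^ 2 + 1 / s)) := by
            refine mul_le_mul_of_nonneg_right ?_ (by positivity)
            linarith

end Pool.Agent.Lib.MP_9f2731_nt.CG.Mf
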