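import Pool.Agent.Lib.MP_9f2731_nt.CG.Ma.All
import Pool.Agent.Lib.MP_9f2731_nt.CG.Mf.MfT
import Pool.Agent.Lib.MP_9f2731_nt.CG.Mf.MfA
import Pool.Agent.Lib.MP_9f2731_nt.CG.Mf.MfB
import Pool.Agent.Lib.MP_9f2731_nt.CG.Mf.MfC
import Pool.Agent.Lib.MP_9f2731_nt.CG.Mf.MfD
import Pool.Agent.Lib.MP_9f2731_nt.CG.Mf.MfE
import Pool.Agent.Lib.MP_9f2731_nt.CG.Mf.MfF
import Pool.Agent.Lib.MP_9f2731_nt.CG.Mf.MfG
import Pool.Agent.Lib.MP_9f2731_nt.CG.Mf.MfH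
import Pool.Agent.Lib.MP_9f2731_nt.CG.Mf.MfI

/-!
MP_9f2731_nt, THEOREM CG (helper92), chapter Mf: composition of the modules.
-/

namespace Pool.Agent.Lib.MP_9f2731_nt.CG.Mf

open Pool.Agent.Lib.MP_9f2731_nt.CG
open Pool.Agent.Lib.MP_9f2731_nt.CG.Ma

theorem aMfT : MfTStmt := pMfT aTmA aTmB aPfA
theorem aMfA : MfAStmt := pMfA aS1F aPfB aMfT
theorem aMfB : MfBStmt := pMfB aS2F aErB aPfB aAfP aMfT
theorem aMfC : MfCStmt := pMfC aS1F aPfB aAfP aMfT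
theorem aMfG : MfGStmt := pMfG aMfA aMfC pMfD

theorem mfAll (h : VarLStmt) : MtStmt :=
  pMfI (pMfF h aMfA aMfB aMfG (pMfE aPfB) pMfH)

end Pool.Agent.Lib.MP_9f2731_nt.CG.Mf
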