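import Pool.Agent.Lib.MP_9f2731_nt.CG.Mf.Spec

/-!
MP_9f2731_nt, CG/Mf/MfH: the number of primes of one form.
-/

namespace Pool.Agent.Lib.MP_9f2731_nt.CG.Mf

open Finset
open Pool.Agent.Lib.MP_9f2731_nt.GP
open Pool.Agent.Lib.MP_9f2731_nt.GP.Sv
open Pool.Agent.Lib.MP_9f2731_nt.QL
open Pool.Agent.Lib.MP_9f2731_nt.QL.Sw
open Pool.Agent.Lib.MP_9f2731_nt.CG
open Pool.Agent.Lib.MP_9f2731_nt.CG.Ma

private theorem mfH_tot {V : ℕ} (hV : 1 ≤ V) :
    ∏ p ∈ V.primeFactors, (1 - (p : ℝ)⁻¹) = dlV V := by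
  have h2 : (((V).totient : ℚ) : ℝ) =
      ((((V : ℕ) : ℚ) * ∏ p ∈ V.primeFactors, (1 - (p : ℚ)⁻¹) : ℚ) : ℝ) := by
    rw [Nat.totient_eq_mul_prod_factors]
  push_cast at h2
  have h3 : (V : ℝ) ≠ 0 := by
    have : 0 < V := hV
    positivity
  unfold dlV
  rw [h2, mul_div_assoc, mul_comm, div_mul_cancel₀ _ h3]

private theorem mfH_anti {V n : ℕ} (hV : 1 ≤ V) (hn : 1 ≤ n) (h : V ∣ n) : dlV n ≤ dlV V := by
  classical
  rw [← mfH_tot hV, ← mfH_tot hn,
    ← Finset.prod_sdiff (Nat.primeFactors_mono h (by omega))]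
  have hf : ∀ p ∈ n.primeFactors, 0 ≤ 1 - (p : ℝ)⁻¹ ∧ 1 - (p : ℝ)⁻¹ ≤ 1 := by
    intro p hp
    have hp2 : (1 : ℝ) ≤ p := by exact_mod_cast (Nat.prime_of_mem_primeFactors hp).one_le
    have h1 : (p : ℝ)⁻¹ ≤ 1 := inv_le_one_of_one_le₀ hp2
    have h2 : 0 ≤ (p : ℝ)⁻¹ := by positivity
    constructor <;> linarith
  have h1 : ∏ p ∈ n.primeFactors \ V.primeFactors, (1 - (p : ℝ)⁻¹) ≤ 1 :=
    Finset.prod_le_one (fun p hp => (hf p (Finset.mem_sdiff.mp hp).1).1)
      (fun p hp => (hf p (Finset.mem_sdiff.mp hp).1).2)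
  have h2 : 0 ≤ ∏ p ∈ V.primeFactors, (1 - (p : ℝ)⁻¹) :=
    Finset.prod_nonneg fun p hp => (hf p (Nat.primeFactors_mono h (by omega) hp)).1
  exact mul_le_of_le_one_left h2 h1

private theorem mfH_half {V p : ℕ} (hV : 1 ≤ V) (hp : p.Prime) (h : ¬ p ∣ V) :
    dlV V ≤ 2 * dlV (V * p) := by
  have h1 : V.Coprime p := ((Nat.Prime.coprime_iff_not_dvd hp).mpr h).symm
  unfold dlV
  rw [Nat.totient_mul h1, Nat.totient_prime hp, Nat.cast_mul, Nat.cast_mul,
    Nat.cast_sub hp.one_le, Nat.cast_one]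
  have hV' : (0 : ℝ) < V := by exact_mod_cast hV
  have hp' : (2 : ℝ) ≤ p := by exact_mod_cast hp.two_le
  rw [← mul_div_assoc, div_le_div_iff₀ hV' (by positivity)]
  have ht : (0 : ℝ) ≤ V.totient := Nat.cast_nonneg _
  have h2 : (0 : ℝ) ≤ (V.totient : ℝ) * V * (p - 2) := by
    have : (0 : ℝ) ≤ (p : ℝ) - 2 := by linarith
    positivity
  nlinarith

private theorem mfH_small (X : ℕ) (S : Finset ℕ) (R : ℝ) (hR : 0 ≤ R) (hS : S ⊆ Icc 1 X) :
    (S.card : ℝ) - R ≤ ((S.filter (fun b : ℕ => R < (b : ℝ))).card : ℝ) := by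
  have h1 : (S.filter (fun b : ℕ => ¬ R < (b : ℝ))) ⊆ Icc 1 ⌊R⌋₊ := by
    intro b hb
    obtain ⟨h2, h3⟩ := Finset.mem_filter.mp hb
    have h4 := Finset.mem_Icc.mp (hS h2)
    rw [Finset.mem_Icc]
    exact ⟨h4.1, Nat.le_floor (not_lt.mp h3)⟩
  have h2 := Finset.card_le_card h1
  rw [Nat.card_Icc, Nat.add_sub_cancel] at h2
  have h3 : ((S.filter (fun b : ℕ => ¬ R < (b : ℝ))).card : ℝ) ≤ R :=
    le_trans (by exact_mod_cast h2) (Nat.floor_le hR)
  have h4 := Finset.card_filter_add_card_filter_not (s := S) (fun b : ℕ => R < (b : ℝ))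
  have h5 : ((S.filter (fun b : ℕ => R < (b : ℝ))).card : ℝ) +
      ((S.filter (fun b : ℕ => ¬ R < (b : ℝ))).card : ℝ) = (S.card : ℝ) := by
    exact_mod_cast h4
  linarith

theorem pMfH : MfHStmt := by
  have ev2 : ∀ᶠ x : ℝ in Filter.atTop, Real.log x ≤ 1 / 40 * x ^ ((4 : ℝ) / 5) := by
    have h1 := (isLittleO_log_rpow_atTop (show (0 : ℝ) < 4 / 5 by norm_num)).bound
      (show (0 : ℝ) < 1 / 40 by norm_num)
    filter_upwards [h1, Filter.eventually_ge_atTop 1] with x hx hx1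
    have h2 : 0 ≤ x ^ ((4 : ℝ) / 5) := Real.rpow_nonneg (by linarith) _
    rw [Real.norm_of_nonneg h2, Real.norm_eq_abs] at hx
    exact (le_abs_self _).trans hx
  have ev3 : ∀ᶠ x : ℝ in Filter.atTop, 1 ≤ Real.log x :=
    Real.tendsto_log_atTop.eventually_ge_atTop 1
  obtain ⟨X0, hX0⟩ := Filter.eventually_atTop.mp (ev2.and (ev3.and
    (Filter.eventually_ge_atTop 1)))
  refine ⟨X0, fun X w V p0 K a l hX hS hB => ?_⟩
  obtain ⟨e2, e3, hX1⟩ := hX0 (X : ℝ) hX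
  have hXpos : (0 : ℝ) < X := by linarith
  have hLpos : (0 : ℝ) < Real.log X := by linarith
  have hVp : 1 ≤ V * p0 := Nat.mul_pos hS.hV hS.hp.pos
  set δ : ℝ := dlV (V * p0) with hδ
  have hδ0 : 0 < δ := dlV_pos hVp
  have hδ1 : δ ≤ 1 := dlV_le_one _
  -- R
  have hR0 : 0 ≤ RR X := Real.rpow_nonneg hXpos.le _
  have hRlog : Real.log (RR X) = Real.log X / 5 := by
    unfold RR
    rw [Real.log_rpow hXpos]
    ring
  have hR1 : RR X ≤ X / (40 * δ * Real.log X) := by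
    have h1 : RR X * (40 * Real.log X) ≤ X := by
      have h2 : (X : ℝ) ^ ((1 : ℝ) / 5) * (X : ℝ) ^ ((4 : ℝ) / 5) = X := by
        rw [← Real.rpow_add hXpos]
        norm_num
      have h3 : RR X * Real.log X ≤ RR X * (1 / 40 * (X : ℝ) ^ ((4 : ℝ) / 5)) :=
        mul_le_mul_of_nonneg_left e2 hR0
      have h4 : RR X * (1 / 40 * (X : ℝ) ^ ((4 : ℝ) / 5)) = 1 / 40 * X := by
        unfold RR
        rw [mul_left_comm, h2]
      linarith
    rw [le_div_iff₀ (by positivity)]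
    have h5 : RR X * (40 * δ * Real.log X) ≤ RR X * (40 * Real.log X) :=
      mul_le_mul_of_nonneg_left (by nlinarith) hR0
    linarith
  -- the number of primes
  have hq : X / (8 * δ * Real.log X) ≤ npq X (a l) := by
    refine le_trans ?_ hB.1
    have ha1 := hS.ha1 l
    have h1 : dlV (a l) ≤ 2 * δ :=
      (mfH_anti hS.hV ha1 (hS.hVa l)).trans (mfH_half hS.hV hS.hp hS.hpV)
    have h2 : 0 < dlV (a l) := dlV_pos ha1
    have h3 : ((a l : ℕ) : ℝ) / (a l).totient = 1 / dlV (a l) := by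
      unfold dlV
      rw [one_div_div]
    rw [h3]
    have h4 : 1 / (2 * δ) ≤ 1 / dlV (a l) := one_div_le_one_div_of_le h2 h1
    have h5 : X / (8 * δ * Real.log X) = 1 / 4 * (1 / (2 * δ) * X / Real.log X) := by
      field_simp
      norm_num
    rw [h5]
    refine mul_le_mul_of_nonneg_left ?_ (by norm_num)
    rw [mul_div_assoc, mul_div_assoc]
    exact mul_le_mul_of_nonneg_right h4 (by positivity)
  have hcard : npq X (a l) - RR X ≤ ((Bp X (a l)).card : ℝ) := by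
    have h1 := mfH_small X ((Icc 1 X).filter (fun b => (a l * b + 1).Prime)) (RR X) hR0
      (Finset.filter_subset _ _)
    have h2 : ((Icc 1 X).filter (fun b => (a l * b + 1).Prime)).filter
        (fun b : ℕ => RR X < (b : ℝ)) = Bp X (a l) := by
      unfold Bp
      rw [Finset.filter_filter]
      refine Finset.filter_congr fun b _ => ?_
      exact and_comm
    rw [h2] at h1
    exact h1
  have hc2 : X / (10 * δ * Real.log X) ≤ ((Bp X (a l)).card : ℝ) := by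
    have h1 : X / (10 * δ * Real.log X) = X / (8 * δ * Real.log X) - X / (40 * δ * Real.log X) := by
      field_simp
      norm_num
    linarith
  have hK : K = (K - 1) + 1 := by
    have := l.pos
    omega
  have hG : 0 ≤ GG (V * p0) X := by
    unfold GG
    rw [hRlog]
    positivity
  have h1 : X / 50 * GG (V * p0) X ≤ ((Bp X (a l)).card : ℝ) * Real.log (RR X) ^ 4 := by
    have h2 : X / 50 * GG (V * p0) X = X / (10 * δ * Real.log X) * Real.log (RR X) ^ 4 := by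
      unfold GG
      rw [hRlog, ← hδ]
      field_simp
      norm_num
    rw [h2]
    exact mul_le_mul_of_nonneg_right hc2 (by positivity)
  calc X / 50 * GG (V * p0) X ^ K = X / 50 * GG (V * p0) X ^ ((K - 1) + 1) := by rw [← hK]
    _ = (X / 50 * GG (V * p0) X) * GG (V * p0) X ^ (K - 1) := by ring
    _ ≤ (((Bp X (a l)).card : ℝ) * Real.log (RR X) ^ 4) * GG (V * p0) X ^ (K - 1) :=
        mul_le_mul_of_nonneg_right h1 (pow_nonneg hG _)
    _ = ((Bp X (a l)).card : ℝ) * (Real.log (RR X) ^ 4 * GG (V * p0) X ^ (K - 1)) := by ring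

end Pool.Agent.Lib.MP_9f2731_nt.CG.Mf
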