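import Pool.Agent.Lib.MP_9f2731_nt.CG.Ma.SpecE

/-!
MP_9f2731_nt, THEOREM CG (helper92), chapter Mf: Maynard-Tao uniformly in a smooth modulus, with rough values. MtStmt from
the mean values of Ma and the variational problem VarStmt of Mv.

RULES. Module X: file Pool/Agent/Lib/MP_9f2731_nt/CG/Mf/X.lean, first line `import
Pool.Agent.Lib.MP_9f2731_nt.CG.Mf.Spec`, `namespace Pool.Agent.Lib.MP_9f2731_nt.CG.Mf`, `open Finset`, `open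
Pool.Agent.Lib.MP_9f2731_nt.GP Pool.Agent.Lib.MP_9f2731_nt.GP.Sv Pool.Agent.Lib.MP_9f2731_nt.QL
Pool.Agent.Lib.MP_9f2731_nt.QL.Sw Pool.Agent.Lib.MP_9f2731_nt.CG Pool.Agent.Lib.MP_9f2731_nt.CG.Ma`, final theorem
`theorem pX : XStmt`; the statements listed under Uses are HYPOTHESES of pX, in this order. All modules are independent.
Notation of the proofs: R = X^(1/5), V' = V p0, δ = dlV V', G = (log R)^3/δ, I = Iq P 𝒜, J_l = Jq P 𝒜 l, M0 = the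
maximum of the P a .M, B = M0 (log R)^2 + 1.
-/

namespace Pool.Agent.Lib.MP_9f2731_nt.CG.Mf

open Finset
open Pool.Agent.Lib.MP_9f2731_nt.GP
open Pool.Agent.Lib.MP_9f2731_nt.GP.Sv
open Pool.Agent.Lib.MP_9f2731_nt.QL
open Pool.Agent.Lib.MP_9f2731_nt.QL.Sw
open Pool.Agent.Lib.MP_9f2731_nt.CG
open Pool.Agent.Lib.MP_9f2731_nt.CG.Ma

/-- the level -/
noncomputable def RR (X : ℕ) : ℝ := (X : ℝ) ^ ((1 : ℝ) / 5)

/-- the sieve weight (its square is used) -/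
noncomputable def WW (W : ℕ) (X : ℕ) {K r : ℕ} (P : Fin r → Pf) (𝒜 : Finset (Fin K → Fin r))
    (a : Fin K → ℕ) (b : ℕ) : ℝ :=
  ∑ v ∈ 𝒜, ∏ j, AF W (RR X) (pfn (P (v j)) (RR X)) (a j * b + 1)

/-- (log R)^3/dlV W -/
noncomputable def GG (W X : ℕ) : ℝ := Real.log (RR X) ^ 3 / dlV W

/-- the b with a0 b + 1 prime, R < b ≤ X -/
noncomputable def Bp (X a0 : ℕ) : Finset ℕ := (Icc 1 X).filter (fun b : ℕ => RR X < b ∧ (a0 * b + 1).Prime)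

/-- the setup: forms a j b + 1, j < K, modulus V, exceptional prime p0, all primes p ≤ w divide V p0 -/
structure Stp (X w V p0 : ℕ) {K : ℕ} (a : Fin K → ℕ) : Prop where
  hp : p0.Prime
  hpV : ¬ p0 ∣ V
  hV : 1 ≤ V
  hw : (Real.log (Real.log X)) ^ 2 ≤ w
  hlog : (1 + Real.log V) ^ 12 ≤ Real.sqrt (Real.log X)
  hs : ∀ p : ℕ, p.Prime → p ≤ w → p ∣ V * p0
  ha : ∀ j, ∀ p : ℕ, p.Prime → ¬ p ∣ V * p0 → ¬ p ∣ a j
  hd : ∀ j k, j ≠ k → ∀ p : ℕ, p.Prime → ¬ p ∣ V * p0 → ¬ p ∣ Nat.dist (a j) (a k)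
  hVa : ∀ j, V ∣ a j
  ha1 : ∀ j, 1 ≤ a j
  haX : ∀ j, a j ≤ X

/-- Module MfT (100 lines; the sizes of the correlation sums). Uses: Ma.TmA, Ma.TmB, Ma.PfA. Proof. Tame V (2 (1 + log V)^2) (TmA), Tame (V p0) lam with lam = 4 (1 + log V)^2, Tame (V p0 p) (2 lam) (TmB). lam^6 (1 + log R)^2 ≤ 4^6 (log X)^(1/2) 4 (log R)^2 ≤ C (log R)^3/(log X)^(1/2) ≤ C G/(log X)^(1/2) (log R = (log X)/5 ≥ 1, 1/δ ≥ 1; (2 lam)^6 = 64 lam^6), and dlV (V p0 p) ≥ dlV (V p0)/2.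
PfA; C = the constant of PfA times M0^2 times an absolute constant. -/
def MfTStmt : Prop := ∀ (r : ℕ) (P : Fin r → Pf), (∀ i, Pok (P i)) → ∃ C X0 : ℝ, 0 < C ∧
  ∀ (X w V p0 K : ℕ) (a : Fin K → ℕ), X0 ≤ X → Stp X w V p0 a →
  (∀ i k : Fin r,
    |TTF (V * p0) (RR X) (pfn (P i) (RR X)) (pfn (P k) (RR X)) 1 1 - GG (V * p0) X * ip (P i) (P k)| ≤
      C * (GG (V * p0) X / Real.sqrt (Real.log X)) ∧
    ∀ b c, |TTF (V * p0) (RR X) (pfn (P i) (RR X)) (pfn (P k) (RR X)) b c| ≤ C * GG (V * p0) X) ∧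
  ∀ p : ℕ, p.Prime → ¬ p ∣ V * p0 → (p : ℝ) ≤ RR X → ∀ (i k : Fin r) (b c : ℕ),
    |TTF (V * p0 * p) (RR X) (pfn (P i) (RR X)) (pfn (P k) (RR X)) b c| ≤ C * GG (V * p0) X ∧
    |TTF (V * p0 * p) (RR X) (fun n => pfn (P i) (RR X) n - pfn (P i) (RR X) (p * n))
        (fun n => pfn (P k) (RR X) n - pfn (P k) (RR X) (p * n)) b c| ≤
      C * (GG (V * p0) X * ((Real.log p / Real.log (RR X)) ^ 2 + 1 / Real.sqrt (Real.log X)))

/-- Module MfA (150 lines; the total mass). Uses: Ma.S1F, Ma.PfB, MfT. Proof. WW^2 = ∑_{v,u ∈ 𝒜} ∏ j, AF (pfn (P (v j))) AF (pfn (P (u j))). For each (v, u): S1F with σ = Fin K, V' = V p0, f (j, true) = pfn (P (v j)) R, f (j, false) = pfn (P (u j)) R, y (j, true) = R^(bd (v j)), y (j, false) = R^(bd (u j)) (≤ R; PfB), B, T j = C G (MfT; C ≥ 1 wlog). The primes of QsV V' R are > w by hs, do not divide P0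
(P0 = 1, or P0 = p0 ∣ V'), and satisfy the conditions on the forms by ha, hd. w ≥ 1 for X large. ∏ y = R^(∑ bd (v j) + ∑ bd (u j)) ≤ R^2 = X^(2/5), so the last error is ≤ X^(2/5) B^(2K) (all together ≤ X^(3/5) for X large, card 𝒜^2 pairs). ∏ TTF 1 1 = G^K (∏ ip + O((log X)^(-1/2))) (product of K factors G (ip + O((log X)^(-1/2)))), and
∏ T (exp (C/w) - 1) ≤ C' G^K/w, w ≥ (loglog X)^2 → ∞. -/
def MfAStmt : Prop := ∀ (K r : ℕ) (P : Fin r → Pf) (bd : Fin r → ℝ) (𝒜 : Finset (Fin K → Fin r)),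
  Vda P bd 𝒜 → ∀ η : ℝ, 0 < η → ∃ X0 : ℝ, ∀ (X w V p0 P0 c : ℕ) (a : Fin K → ℕ), X0 ≤ X →
  Stp X w V p0 a → (P0 = 1 ∨ P0 = p0) →
  |∑ b ∈ (Icc 1 X).filter (fun b => b ≡ c [MOD P0]), WW (V * p0) X P 𝒜 a b ^ 2
    - X / P0 * (GG (V * p0) X ^ K * Iq P 𝒜)| ≤
    X / P0 * (GG (V * p0) X ^ K * η) + (X : ℝ) ^ ((3 : ℝ) / 5)

/-- Module MfB (200 lines; the mass on the primes of one form). Uses: Ma.S2F, Ma.ErB, Ma.PfB, Ma.AfP, MfT. Proof. For b ∈ Bp X (a l) the prime a l b + 1 is > R, so AF V' R (pfn (P i) R) (a l b + 1) = pfn (P i) R 1 = (log R)^2 im (P i) (AfP (3), PfB). So WW b^2 = (log R)^4 ∑_{v,u} im (P (v l)) im (P (u l)) ∏_{j ≠ l} AF AF (the product over j is the factor l times the product over the subtype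
σ = {j // j ≠ l}, or over univ.erase l). S2F for σ, V' = V p0, a0 = a l, 𝒷 = Bp X (a l), err from ErB (n = 2 (K-1), V := V p0; the primes not dividing V p0 do not divide a l), y as in MfA: ∏ y ≤ R^2 = X^(2/5), so the sum over D is ≤ X exp(-(log X)^(1/300)) (a subset of the D ≤ X^(2/5), terms ≥ 0); times B^(2K) (log R)^4 card 𝒜^2 times constants it is ≤ X for X large.
∏_{j ≠ l} TTF 1 1 = G^(K-1) (∏ ip + O((log X)^(-1/2))), ∏ T (exp (C/w) - 1) ≤ C' G^(K-1)/w. -/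
def MfBStmt : Prop := ∀ (K r : ℕ) (P : Fin r → Pf) (bd : Fin r → ℝ) (𝒜 : Finset (Fin K → Fin r)),
  Vda P bd 𝒜 → ∀ η : ℝ, 0 < η → ∃ X0 : ℝ, ∀ (X w V p0 : ℕ) (a : Fin K → ℕ) (l : Fin K), X0 ≤ X →
  Stp X w V p0 a → BvOK X p0 (a l) →
  |∑ b ∈ Bp X (a l), WW (V * p0) X P 𝒜 a b ^ 2
    - ((Bp X (a l)).card : ℝ) * (Real.log (RR X) ^ 4 * GG (V * p0) X ^ (K - 1) * Jq P 𝒜 l)| ≤
    ((Bp X (a l)).card : ℝ) * (Real.log (RR X) ^ 4 * GG (V * p0) X ^ (K - 1) * η) + X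

/-- Module MfC (200 lines; the mass on the multiples of one prime). Uses: Ma.S1F, Ma.PfB, Ma.AfP, MfT. Proof. p does not divide a l, so the b with p ∣ a l b + 1 form one class c modulo p; p does not divide a j b + 1 for j ≠ l (otherwise p ∣ dist (a j) (a l)). p ∈ QsV V' R. By AfP for such b: AF V' R (pfn (P (v j)) R) (a j b + 1) = AF (V' p) R (f j) (a j b + 1), f j = pfn (P (v j)) R for j ≠ l and
f l = pfn (P (v l)) R - pfn (P (v l)) R (p ·). S1F for V' p, P0 = p (the primes of QsV (V' p) R are in QsV V' R and ≠ p), the same y (Sup of f l: f l n = 0 for n > y, since p n ≥ n), |f| ≤ 2 B. T j = C G for j ≠ l, T l = C G ((log p/log R)^2 + 1/sqrt(log X)) (MfT). |∏ TTF 1 1| ≤ ∏ T, exp (C/w) - 1 ≤ exp C. ∏ y (2B) ≤ X^(2/5) (2B)^(2K). Sum over (v,u) ∈ 𝒜^2. -/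
def MfCStmt : Prop := ∀ (K r : ℕ) (P : Fin r → Pf) (bd : Fin r → ℝ) (𝒜 : Finset (Fin K → Fin r)),
  Vda P bd 𝒜 → ∃ C1 X0 : ℝ, 0 < C1 ∧ ∀ (X w V p0 p : ℕ) (a : Fin K → ℕ) (l : Fin K), X0 ≤ X →
  Stp X w V p0 a → p.Prime → ¬ p ∣ V * p0 → (p : ℝ) ≤ RR X →
  ∑ b ∈ (Icc 1 X).filter (fun b => p ∣ a l * b + 1), WW (V * p0) X P 𝒜 a b ^ 2 ≤
    X / p * (GG (V * p0) X ^ K *
      (C1 * ((Real.log p / Real.log (RR X)) ^ 2 + 1 / Real.sqrt (Real.log X)))) + (X : ℝ) ^ ((3 : ℝ) / 5)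

/-- Module MfD (100 lines; sums over primes). Uses: nothing. (sum_inv_primes_le in Lib/MP_aa9ae4_nt/Mertens.lean is proved; import that file.) Proof. z = ⌊X^κ⌋. ∑_{p ≤ z} log p/p ≤ log z + 2: ∑_{p ≤ z} log p (z/p - 1) ≤ ∑_{p ≤ z} log p ⌊z/p⌋ ≤ log z! ≤ z log z (Legendre, or ∑_{n ≤ z} log n = ∑_{n} ∑_{d ∣ n} Λ(d) ≥ ∑_p log p ⌊z/p⌋), and ∑_{p ≤ z} log p = θ(z) ≤ log 4 z (Chebyshev.theta_le_log4_mul_x).
So ∑_{p ≤ z} (log p)^2/p ≤ log z (log z + 2), log z ≤ κ log X, log R = (log X)/5: the first part is ≤ 25 κ^2 + 50 κ/log X. ∑_{p ≤ z} 1/p ≤ loglog X + C, divided by sqrt(log X) it tends to 0. -/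
def MfDStmt : Prop := ∃ C2 : ℝ, 0 < C2 ∧ ∀ κ η : ℝ, 0 < κ → κ ≤ 1 → 0 < η → ∃ X0 : ℝ, ∀ X : ℕ, X0 ≤ X →
  ∑ p ∈ (Icc 1 ⌊(X : ℝ) ^ κ⌋₊).filter Nat.Prime,
    1 / (p : ℝ) * ((Real.log p / Real.log (RR X)) ^ 2 + 1 / Real.sqrt (Real.log X)) ≤ C2 * κ ^ 2 + η

/-- Module MfE (80 lines; rough values). Uses: Ma.PfB. Proof. n = a j b + 1 ≤ X^2 + 1 ≤ X^3. All prime factors of n are > X^κ, so n has at most 3/κ prime factors and at most 2^(3/κ) squarefree divisors. |AF V' R f n| ≤ ∑_{d ∣ n, d ∣ PqV V' R} |f d| ≤ 2^(3/κ) M0 (log R)^2 (ind d n = 0 unless d ∣ n; divisors of PqV are squarefree; log R ≥ 0).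
WW is a sum of card 𝒜 products of K such factors. -/
def MfEStmt : Prop := ∀ (K r : ℕ) (P : Fin r → Pf) (bd : Fin r → ℝ) (𝒜 : Finset (Fin K → Fin r)),
  Vda P bd 𝒜 → ∀ κ : ℝ, 0 < κ → ∃ C3 X0 : ℝ, 0 < C3 ∧ ∀ (X w V p0 b : ℕ) (a : Fin K → ℕ), X0 ≤ X →
  Stp X w V p0 a → b ∈ Icc 1 X → (∀ j, Rgh ((X : ℝ) ^ κ) (a j * b + 1)) →
  WW (V * p0) X P 𝒜 a b ^ 2 ≤ C3 * (Real.log (RR X) ^ (4 * K))

/-- Module MfH (60 lines; the number of primes). Uses: nothing. Proof. V ∣ a l, so a l/φ(a l) ≥ V/φ(V) = 1/dlV V (n/φ(n) is the product of p/(p-1) over the p ∣ n: Nat.totient_eq_mul_prod_factors), and dlV (V p0) = dlV V (p0 - 1)/p0 ≥ dlV V/2. So npq X (a l) ≥ (1/4)(1/(2 dlV (V p0))) X/log X, and Bp X (a l) has at least npq X (a l) - R elements; R ≤ X^(1/5) ≤ X/(40 log X) ≤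
X/(40 dlV (V p0) log X) for X large. log X = 5 log R, and (log R)^4 G^(K-1)/(dlV (V p0) log X) = (1/5) G^K (K ≥ 1). -/
def MfHStmt : Prop := ∃ X0 : ℝ, ∀ (X w V p0 K : ℕ) (a : Fin K → ℕ) (l : Fin K), X0 ≤ X → Stp X w V p0 a →
  BvOK X p0 (a l) →
  X / 50 * GG (V * p0) X ^ K ≤ ((Bp X (a l)).card : ℝ) * (Real.log (RR X) ^ 4 * GG (V * p0) X ^ (K - 1))

open Classical in
/-- Module MfG (150 lines; the rough part carries the mass). Uses: MfA, MfC, MfD. Proof. If some a j b + 1 is not X^κ-rough there is a prime p ≤ X^κ with p ∣ a j b + 1; p does not divide V (V ∣ a j), so p = p0 or p ∤ V p0. So the sum is at most ∑_j (A_j + ∑_{p ≤ X^κ, p ∤ V p0} ∑_{b : p ∣ a j b + 1} WW^2), A_j = the sum over the b with p0 ∣ a j b + 1: these b lie in one class modulo p0 (none if p0 ∣ a j), so by MfA with P0 = p0, η = 1: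
A_j ≤ (X/p0) G^K (I + 1) + X^(3/5) ≤ X G^K (I + 1)/w1 + X^(3/5). By MfC and MfD the second part is ≤ X G^K C1 (C2 κ^2 + η') + X^κ X^(3/5). G ≥ 1 and X^(7/10) ≤ X η' for X large. Choose κ ≤ 1/10 with K C1 C2 κ^2 ≤ η/4, then w1 with K (I + 1)/w1 ≤ η/4, η' small. -/
def MfGStmt : Prop := ∀ (K r : ℕ) (P : Fin r → Pf) (bd : Fin r → ℝ) (𝒜 : Finset (Fin K → Fin r)),
  Vda P bd 𝒜 → ∀ η : ℝ, 0 < η → ∃ (κ : ℝ) (w1 : ℕ) (X0 : ℝ), 0 < κ ∧ ∀ (X w V p0 : ℕ) (a : Fin K → ℕ),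
  X0 ≤ X → w1 < p0 → Stp X w V p0 a →
  ∑ b ∈ (Icc 1 X).filter (fun b => ¬ ∀ j, Rgh ((X : ℝ) ^ κ) (a j * b + 1)), WW (V * p0) X P 𝒜 a b ^ 2 ≤
    X * (GG (V * p0) X ^ K * η)

open Classical in
/-- MAYNARD-TAO for forms a j b + 1, j < L: m + 1 primes among the first K forms, rough values for all forms -/
def MtkStmt : Prop := ∀ m : ℕ, ∃ K : ℕ, ∀ L : ℕ, K ≤ L → ∃ (κ c : ℝ) (w1 : ℕ) (X0 : ℝ), 0 < κ ∧ 0 < c ∧
  ∀ (X w V p0 : ℕ) (a : Fin L → ℕ), X0 ≤ X → w1 < p0 → Stp X w V p0 a →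
  (∀ j : Fin L, (j : ℕ) < K → BvOK X p0 (a j)) →
  c * (((V : ℝ) / V.totient) / Real.log X) ^ L * X ≤
    (((Icc 1 X).filter (fun b => (∀ j, Rgh ((X : ℝ) ^ κ) (a j * b + 1)) ∧
      m + 1 ≤ (univ.filter (fun j : Fin L => (j : ℕ) < K ∧ (a j * b + 1).Prime)).card)).card : ℝ)

/-- Module MfF (200 lines; main step). Uses: VarLStmt, MfA, MfB, MfG, MfE, MfH. Proof. VarLStmt with Λ = 50 (m + 3): K ≥ 1; given L ≥ K: r, P, bd, 𝒜. I > 0. MfG with η = I/(4 L): κ, w1. MfA with P0 = 1, η = I/(4 (m+1)); MfB with η = I/K; C3 from MfE. w(b) = WW^2 ≥ 0, Z = X G^L, N(b) = the number of the j < K with a j b + 1 prime.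
(1) ∑_{b ≤ X} w(b) N(b) ≥ ∑_{l < K} ∑_{b ∈ Bp X (a l)} w(b) ≥ ∑_{l < K} (Z/50) (J_l - I/K) - K X: if J_l ≥ I/K by MfB and MfH, otherwise the sum is ≥ 0 and the bound is negative. So it is ≥ (Z/50)(Λ I - I) - K X ≥ Z (m + 2) I - K X. (2) m ∑ w(b) ≤ m Z (I + I/(4(m+1))) + m X^(3/5) ≤ Z (m I + I/4) + m X.
(3) K ∑_{b not rough} w(b) ≤ Z I/4. So ∑_{b rough} w(b) (N(b) - m) ≥ Z (2 I - I/2) - (K + m) X ≥ Z I for X large (Z ≥ X (log R)^(3L), L ≥ 1, I > 0 fixed). (4) For a rough b the term is ≤ 0 unless N(b) ≥ m + 1, and then ≤ K C3 (log R)^(4L). So the number of the rough b with N(b) ≥ m + 1 is ≥ Z I/(K C3 (log R)^(4L)) =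
(I/(K C3)) X (1/(dlV (V p0) log R))^L, and dlV (V p0) ≤ dlV V, log R ≤ log X. -/
def MfFStmt : Prop := MtkStmt

/-- Module MfI (150 lines; from Mtk to MtStmt). Uses: MtkStmt. Proof. K from Mtk, L = card ℋ ≥ K, κ, c, w1 from Mtk. e : Fin L ≃ ℋ such that the first K indices correspond to 𝒢 (Finset.equivFin of 𝒢 and of ℋ without 𝒢, finSumFinEquiv, L = K + card (ℋ \ 𝒢)), gm = the maximum of ℋ (and 1), a j = V (g_j s), w = ⌊(loglog X)^4⌋, w1' = max w1 gm. X large: (loglog X)^2 ≤ w, gm ≤ w,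
(1 + (loglog X)^6)^12 ≤ sqrt(log X), exp((loglog X)^6) gm ≤ X. Stp: hs: p ≤ w gives p ≤ (loglog X)^4, so p = p0 or p ∣ V. ha: a prime p not dividing V p0 is > w ≥ gm, so it does not divide g_j; SmV V s: it does not divide s. hd: dist (V g s) (V g' s) = V s dist g g', 0 < dist g g' ≤ gm < p. (V b (g s) + 1 = (V (g s)) b + 1.) The filters agree:
the number of the j < K with a j b + 1 prime is the number of the g ∈ 𝒢 with V b (g s) + 1 prime; Rgh over j : Fin L and over g ∈ ℋ. -/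
def MfIStmt : Prop := MtStmt

end Pool.Agent.Lib.MP_9f2731_nt.CG.Mf
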